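import Pool.Agent.H18.Sparse.Crit
import Pool.Agent.H15.Hart.Gens
import Pool.Agent.H6.CommonZero

/-!
# Smooth varieties of small codimension with equations of bounded degree: definitions

* `ev s y`: value at `y` of a vector of polynomials;
* `Sec I φ e s`: `s` is a vector of forms of degree `e` on `ℂ^κ` whose value at `y ≠ 0` lies in the
  conormal space at `φ y`;
* `Xi`, `zc`, `Fil`: the grading of `ℂ[m, z]` by the degree in `z`;
* `TT t`: the polynomial `∑ t_j(m) z_j`.
-/

open MvPolynomial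

namespace H79.Hart

open H89.Hart

section Sections

variable {ι κ : Type*} [Fintype ι] [DecidableEq ι] [Fintype κ] [DecidableEq κ]

/-- Value at `y` of a vector of polynomials. -/
noncomputable def ev (s : ι → MvPolynomial κ ℂ) (y : κ → ℂ) : ι → ℂ := fun i => eval y (s i)

/-- A vector of forms of degree `e` on `ℂ^κ` with values in the conormal spaces along `φ`. -/
structure Sec (I : Ideal (MvPolynomial ι ℂ)) (φ : (κ → ℂ) →ₗ[ℂ] (ι → ℂ)) (e : ℕ)
    (s : ι → MvPolynomial κ ℂ) : Prop where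
  homog : ∀ i, (s i).IsHomogeneous e
  mem : ∀ y, y ≠ 0 → ev s y ∈ N I (φ y)

end Sections

section Grading

variable {α μ : Type*} [Fintype α] [DecidableEq α] [Fintype μ] [DecidableEq μ]

/-- `f(m, s z)` as a polynomial in `s`. -/
noncomputable def Xi :
    MvPolynomial (α ⊕ μ) ℂ →ₐ[ℂ] Polynomial (MvPolynomial (α ⊕ μ) ℂ) :=
  aeval (Sum.elim (fun a => Polynomial.C (X (Sum.inl a)))
    (fun j => Polynomial.C (X (Sum.inr j)) * Polynomial.X))

/-- The part of degree `b` in the variables `z`. -/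
noncomputable def zc (b : ℕ) (f : MvPolynomial (α ⊕ μ) ℂ) : MvPolynomial (α ⊕ μ) ℂ :=
  (Xi f).coeff b

/-- Polynomials of order at least `a` in the variables `z`. -/
noncomputable def Fil (α μ : Type*) [Fintype α] [DecidableEq α] [Fintype μ] [DecidableEq μ]
    (a : ℕ) : Ideal (MvPolynomial (α ⊕ μ) ℂ) :=
  (Ideal.span {Polynomial.X ^ a}).comap (Xi : MvPolynomial (α ⊕ μ) ℂ →ₐ[ℂ] _)

/-- The polynomial `∑ t_j(m) z_j`. -/
noncomputable def TT (t : μ → MvPolynomial α ℂ) : MvPolynomial (α ⊕ μ) ℂ :=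
  ∑ j, rename Sum.inl (t j) * X (Sum.inr j)

/-- The ideal generated by all `TT (t i)`. -/
noncomputable def JT {r : ℕ} (t : Fin r → μ → MvPolynomial α ℂ) : Ideal (MvPolynomial (α ⊕ μ) ℂ) :=
  Ideal.span (Set.range fun i => TT (t i))

end Grading

end H79.Hart
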