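import Pool.Agent.H79.Hart.Defs
import Pool.Agent.H89.Hart.L0

/-! Basic facts on the grading by the degree in the variables `z` (HBD-8). -/

open MvPolynomial

set_option linter.unusedSectionVars false

namespace H79.Hart

open H89.Hart

variable {α μ : Type*} [Fintype α] [DecidableEq α] [Fintype μ] [DecidableEq μ]

/-- the degree of an exponent in the variables `z` -/
def wt (m : (α ⊕ μ) →₀ ℕ) : ℕ := ∑ j : μ, m (Sum.inr j)

theorem Xi_X_inl (a : α) : (Xi (X (Sum.inl a) : MvPolynomial (α ⊕ μ) ℂ)) =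
    Polynomial.C (X (Sum.inl a)) := by
  simp [Xi]

theorem Xi_X_inr (j : μ) : (Xi (X (Sum.inr j) : MvPolynomial (α ⊕ μ) ℂ)) =
    Polynomial.C (X (Sum.inr j)) * Polynomial.X := by
  simp [Xi]

theorem Xi_monomial (m : (α ⊕ μ) →₀ ℕ) (c : ℂ) :
    (Xi (monomial m c : MvPolynomial (α ⊕ μ) ℂ)) =
      Polynomial.C (monomial m c) * Polynomial.X ^ wt m := by
  have h1 : (monomial m c : MvPolynomial (α ⊕ μ) ℂ) =
      C c * ((∏ a : α, X (Sum.inl a) ^ m (Sum.inl a)) * ∏ j : μ, X (Sum.inr j) ^ m (Sum.inr j)) := by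
    rw [monomial_eq, Finsupp.prod_fintype _ _ (fun _ => pow_zero _), Fintype.prod_sum_type]
  rw [h1, map_mul, map_mul, map_prod, map_prod]
  have h2 : (Xi (C c : MvPolynomial (α ⊕ μ) ℂ)) = Polynomial.C (C c) := by
    rw [← algebraMap_eq, AlgHom.commutes]; rfl
  rw [h2]
  simp only [map_pow, Xi_X_inl, Xi_X_inr, mul_pow, Finset.prod_mul_distrib, map_mul, map_prod]
  rw [Finset.prod_pow_eq_pow_sum]
  unfold wt
  ring

theorem coeff_zc (b : ℕ) (f : MvPolynomial (α ⊕ μ) ℂ) (m : (α ⊕ μ) →₀ ℕ) :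
    coeff m (zc b f) = if wt m = b then coeff m f else 0 := by
  classical
  unfold zc
  induction f using MvPolynomial.induction_on' with
  | monomial u c =>
    rw [Xi_monomial, Polynomial.coeff_C_mul, Polynomial.coeff_X_pow]
    by_cases h : b = wt u
    · rw [if_pos h, mul_one, coeff_monomial]
      by_cases hm : u = m
      · subst hm; rw [if_pos rfl, if_pos h.symm]
      · rw [if_neg hm]; simp
    · rw [if_neg h, mul_zero, coeff_zero, coeff_monomial]
      by_cases hm : u = m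
      · subst hm; rw [if_neg (Ne.symm h)]
      · rw [if_neg hm]; simp
  | add p q hp hq =>
    rw [map_add, Polynomial.coeff_add, coeff_add, hp, hq, coeff_add]
    split_ifs <;> simp

theorem mem_Fil {a : ℕ} {f : MvPolynomial (α ⊕ μ) ℂ} :
    f ∈ Fil α μ a ↔ ∀ b < a, zc b f = 0 := by
  unfold Fil zc
  rw [Ideal.mem_comap, Ideal.mem_span_singleton, Polynomial.X_pow_dvd_iff]

theorem zc_add (b : ℕ) (f g : MvPolynomial (α ⊕ μ) ℂ) : zc b (f + g) = zc b f + zc b g := by
  unfold zc; rw [map_add, Polynomial.coeff_add]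

theorem zc_sub (b : ℕ) (f g : MvPolynomial (α ⊕ μ) ℂ) : zc b (f - g) = zc b f - zc b g := by
  unfold zc; rw [map_sub, Polynomial.coeff_sub]

theorem zc_inl_mul (b n : ℕ) (a : α) (f : MvPolynomial (α ⊕ μ) ℂ) :
    zc b (X (Sum.inl a) ^ n * f) = X (Sum.inl a) ^ n * zc b f := by
  unfold zc
  rw [map_mul, map_pow, Xi_X_inl, ← Polynomial.C_pow, Polynomial.coeff_C_mul]

theorem Xi_rename (t : MvPolynomial α ℂ) :
    (Xi (rename Sum.inl t : MvPolynomial (α ⊕ μ) ℂ)) = Polynomial.C (rename Sum.inl t) := by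
  induction t using MvPolynomial.induction_on with
  | C c =>
    rw [rename_C, ← algebraMap_eq, AlgHom.commutes]; rfl
  | add p q hp hq => rw [map_add, map_add, hp, hq, ← Polynomial.C_add]
  | mul_X p n hp => rw [map_mul, map_mul, hp, rename_X, Xi_X_inl, ← Polynomial.C_mul]

theorem Xi_TT (t : μ → MvPolynomial α ℂ) :
    (Xi (TT t : MvPolynomial (α ⊕ μ) ℂ)) = Polynomial.C (TT t) * Polynomial.X := by
  unfold TT
  rw [map_sum, map_sum, Finset.sum_mul]
  refine Finset.sum_congr rfl fun j _ => ?_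
  rw [map_mul, Xi_rename, Xi_X_inr, Polynomial.C_mul, mul_assoc]

/-- `TT t` is linear in `z`. -/
theorem zc_mul_TT (b : ℕ) (f : MvPolynomial (α ⊕ μ) ℂ) (t : μ → MvPolynomial α ℂ) :
    zc (b + 1) (f * TT t) = zc b f * TT t := by
  unfold zc
  rw [map_mul, Xi_TT, ← mul_assoc, Polynomial.coeff_mul_X, Polynomial.coeff_mul_C]

theorem zc_TT (b : ℕ) (t : μ → MvPolynomial α ℂ) :
    zc b (TT t) = if b = 1 then TT t else 0 := by
  unfold zc
  rw [Xi_TT, Polynomial.coeff_C_mul, Polynomial.coeff_X]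
  by_cases h : b = 1
  · subst h; simp
  · rw [if_neg h, if_neg (Ne.symm h), mul_zero]

theorem zc_zc (b c : ℕ) (f : MvPolynomial (α ⊕ μ) ℂ) :
    zc b (zc c f) = if b = c then zc c f else 0 := by
  ext m
  rw [coeff_zc, coeff_zc]
  by_cases h : b = c
  · subst h; rw [if_pos rfl, coeff_zc]; split_ifs <;> rfl
  · rw [if_neg h, coeff_zero]
    split_ifs with h1 h2
    · exact absurd (h1.symm.trans h2) h
    · rfl
    · rfl

/-- evaluation of the parts: restriction to the line `(m, 0) + s (0, z)`. -/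
theorem eval_zc (b : ℕ) (f : MvPolynomial (α ⊕ μ) ℂ) (m : α → ℂ) (z : μ → ℂ) :
    eval (Sum.elim m z) (zc b f) = (ln (Sum.elim m 0) (Sum.elim 0 z) f).coeff b := by
  have key : Polynomial.map (eval (Sum.elim m z)) (Xi f) = ln (Sum.elim m 0) (Sum.elim 0 z) f := by
    induction f using MvPolynomial.induction_on with
    | C c =>
      rw [← algebraMap_eq, AlgHom.commutes, AlgHom.commutes]
      change Polynomial.map _ (Polynomial.C (C c)) = Polynomial.C c
      rw [Polynomial.map_C, eval_C]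
    | add p q hp hq => rw [map_add, map_add, Polynomial.map_add, hp, hq]
    | mul_X p n hp =>
      rw [map_mul, map_mul, Polynomial.map_mul, hp]
      congr 1
      rcases n with a | j
      · rw [Xi_X_inl, Polynomial.map_C, eval_X]
        simp [ln]
      · rw [Xi_X_inr, Polynomial.map_mul, Polynomial.map_C, Polynomial.map_X, eval_X]
        simp [ln]
  rw [← key, Polynomial.coeff_map]
  rfl

theorem sub_zc_mem {a : ℕ} {f : MvPolynomial (α ⊕ μ) ℂ} (hf : f ∈ Fil α μ a) :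
    f - zc a f ∈ Fil α μ (a + 1) := by
  rw [mem_Fil] at hf ⊢
  intro b hb
  rw [zc_sub, zc_zc]
  by_cases h : b = a
  · subst h; rw [if_pos rfl, sub_self]
  · rw [if_neg h, hf b (by omega), sub_zero]

theorem Fil_mul {a b : ℕ} {f g : MvPolynomial (α ⊕ μ) ℂ} (hf : f ∈ Fil α μ a)
    (hg : g ∈ Fil α μ b) : f * g ∈ Fil α μ (a + b) := by
  unfold Fil at *
  rw [Ideal.mem_comap, Ideal.mem_span_singleton] at *
  rw [map_mul, pow_add]
  exact mul_dvd_mul hf hg

theorem coeff_eq_zero_of_mem_Fil {a : ℕ} {f : MvPolynomial (α ⊕ μ) ℂ} (hf : f ∈ Fil α μ a)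
    {m : (α ⊕ μ) →₀ ℕ} (hm : wt m < a) : coeff m f = 0 := by
  have h := coeff_zc (wt m) f m
  rw [if_pos rfl, mem_Fil.1 hf _ hm, coeff_zero] at h
  exact h.symm

theorem mem_Fil_of_coeff {a : ℕ} {f : MvPolynomial (α ⊕ μ) ℂ}
    (hf : ∀ m, wt m < a → coeff m f = 0) : f ∈ Fil α μ a := by
  rw [mem_Fil]
  intro b hb
  ext m
  rw [coeff_zc, coeff_zero]
  split_ifs with h
  · exact hf m (h ▸ hb)
  · rfl

theorem monomial_mem_pow (m : (α ⊕ μ) →₀ ℕ) (c : ℂ) (p : α → ℂ) :
    (monomial m c : MvPolynomial (α ⊕ μ) ℂ) ∈ (mI (Sum.elim p 0 : α ⊕ μ → ℂ)) ^ wt m := by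
  have h1 : (monomial m c : MvPolynomial (α ⊕ μ) ℂ) =
      C c * ((∏ a : α, X (Sum.inl a) ^ m (Sum.inl a)) * ∏ j : μ, X (Sum.inr j) ^ m (Sum.inr j)) := by
    rw [monomial_eq, Finsupp.prod_fintype _ _ (fun _ => pow_zero _), Fintype.prod_sum_type]
  rw [h1]
  refine Ideal.mul_mem_left _ _ (Ideal.mul_mem_left _ _ ?_)
  unfold wt
  rw [← Finset.prod_pow_eq_pow_sum]
  refine Ideal.prod_mem_prod fun j _ => Ideal.pow_mem_pow ?_ _
  rw [mem_mI, eval_X]
  rfl

theorem Fil_le_pow (a : ℕ) (m : α → ℂ) : Fil α μ a ≤ (mI (Sum.elim m 0 : α ⊕ μ → ℂ)) ^ a := by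
  intro f hf
  rw [f.as_sum]
  refine Ideal.sum_mem _ fun u hu => ?_
  have h1 : a ≤ wt u := by
    by_contra h
    exact (mem_support_iff.1 hu) (coeff_eq_zero_of_mem_Fil hf (not_le.1 h))
  exact Ideal.pow_le_pow_right h1 (monomial_mem_pow u _ m)

theorem Fil_homog {a : ℕ} {f : MvPolynomial (α ⊕ μ) ℂ} (hf : f ∈ Fil α μ a) (d : ℕ) :
    homogeneousComponent d f ∈ Fil α μ a := by
  apply mem_Fil_of_coeff
  intro m hm
  rw [coeff_homogeneousComponent]
  split_ifs
  · exact coeff_eq_zero_of_mem_Fil hf hm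
  · rfl

theorem wt_le_degree (m : (α ⊕ μ) →₀ ℕ) : wt m ≤ m.degree := by
  unfold wt
  rw [Finsupp.degree_eq_sum, Fintype.sum_sum_type]
  exact Nat.le_add_left _ _

/-- forms of degree `< a` and order `≥ a` are zero. -/
theorem Fil_eq_zero {a d : ℕ} (hd : d < a) {f : MvPolynomial (α ⊕ μ) ℂ} (hf : f ∈ Fil α μ a)
    (hfh : f.IsHomogeneous d) : f = 0 := by
  ext m
  rw [coeff_zero]
  by_contra h
  have h1 : m.degree = d := by
    have := hfh h
    rw [← this]
    exact (Finsupp.degree_eq_weight_one (R := ℕ) ▸ rfl)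
  have h2 := wt_le_degree m
  exact h (coeff_eq_zero_of_mem_Fil hf (by omega))

end H79.Hart
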