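import Pool.Agent.H79.Hart.Defs

/-!
# Polynomials in one variable: combinations of independent vectors, restriction of forms to lines
-/

open MvPolynomial

namespace H79.Hart

open H89.Hart

set_option linter.unusedSectionVars false

/-- HBD-3a. -/
theorem comb_of_mul {β : Type*} [Fintype β] {ι : Type*} (g : β → ι → Polynomial ℂ)
    (hli : ∀ t : ℂ, LinearIndependent ℂ (fun b => fun i => (g b i).eval t))
    (σ : ι → Polynomial ℂ) (Δ : Polynomial ℂ) (hΔ : Δ ≠ 0) (c : β → Polynomial ℂ)
    (h : ∀ i, Δ * σ i = ∑ b, c b * g b i) :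
    ∃ c' : β → Polynomial ℂ, ∀ i, σ i = ∑ b, c' b * g b i := by
  induction hn : Δ.natDegree using Nat.strong_induction_on generalizing Δ c with
  | _ n ih =>
    by_cases h0 : Δ.natDegree = 0
    · rw [Polynomial.natDegree_eq_zero] at h0
      obtain ⟨u, rfl⟩ := h0
      have hu : u ≠ 0 := by
        rintro rfl
        simp at hΔ
      refine ⟨fun b => Polynomial.C u⁻¹ * c b, fun i => ?_⟩
      simp only [mul_assoc]
      rw [← Finset.mul_sum, ← h i, ← mul_assoc, ← Polynomial.C_mul, inv_mul_cancel₀ hu,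
        Polynomial.C_1, one_mul]
    · have hdeg : Δ.degree ≠ 0 := by
        intro h1
        exact h0 (Polynomial.natDegree_eq_of_degree_eq_some h1)
      obtain ⟨t, ht⟩ := IsAlgClosed.exists_root Δ hdeg
      have hc : ∀ b, (c b).eval t = 0 := by
        have h1 := hli t
        rw [Fintype.linearIndependent_iff] at h1
        refine h1 (fun b => (c b).eval t) ?_
        funext i
        have h2 := congrArg (Polynomial.eval t) (h i)
        rw [Polynomial.eval_mul, ht, zero_mul, Polynomial.eval_finsetSum] at h2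
        simp only [Polynomial.eval_mul] at h2
        simp only [Finset.sum_apply, Pi.smul_apply, smul_eq_mul, Pi.zero_apply]
        exact h2.symm
      have hd : ∀ b, ∃ d, c b = (Polynomial.X - Polynomial.C t) * d := fun b =>
        (Polynomial.dvd_iff_isRoot.mpr (hc b) : _)
      choose d hd using hd
      obtain ⟨Δ', hΔ'⟩ : ∃ d, Δ = (Polynomial.X - Polynomial.C t) * d :=
        (Polynomial.dvd_iff_isRoot.mpr ht : _)
      have hX : (Polynomial.X - Polynomial.C t : Polynomial ℂ) ≠ 0 := Polynomial.X_sub_C_ne_zero t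
      have hΔ'0 : Δ' ≠ 0 := by
        rintro rfl
        rw [mul_zero] at hΔ'
        exact hΔ hΔ'
      refine ih Δ'.natDegree ?_ Δ' hΔ'0 d ?_ rfl
      · rw [← hn, hΔ', Polynomial.natDegree_mul hX hΔ'0, Polynomial.natDegree_X_sub_C]
        omega
      · intro i
        apply mul_left_cancel₀ hX
        rw [← mul_assoc, ← hΔ', h i, Finset.mul_sum]
        refine Finset.sum_congr rfl fun b _ => ?_
        rw [hd b, mul_assoc]

/-- HBD-3b. -/
theorem comb_eq_zero {β : Type*} [Fintype β] {ι : Type*} (g : β → ι → Polynomial ℂ) (a : β → ℕ)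
    (hdeg : ∀ b i, (g b i).natDegree ≤ a b)
    (hli : LinearIndependent ℂ (fun b => fun i => (g b i).coeff (a b)))
    (σ : ι → Polynomial ℂ) (j : ℕ) (hj : ∀ b, j < a b) (hσ : ∀ i, (σ i).natDegree ≤ j)
    (c : β → Polynomial ℂ) (h : ∀ i, σ i = ∑ b, c b * g b i) : ∀ i, σ i = 0 := by
  classical
  by_cases hc : ∀ b, c b = 0
  · intro i
    rw [h i]
    exact Finset.sum_eq_zero fun b _ => by rw [hc b, zero_mul]
  · exfalso
    push Not at hc
    obtain ⟨b₁, hb₁⟩ := hc
    obtain ⟨b₀, hb₀, hmax⟩ := Finset.exists_max_image (Finset.univ.filter fun b => c b ≠ 0)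
      (fun b => (c b).natDegree + a b) ⟨b₁, by simp [hb₁]⟩
    rw [Finset.mem_filter] at hb₀
    set M := (c b₀).natDegree + a b₀ with hM
    have hle : ∀ b, c b ≠ 0 → (c b).natDegree + a b ≤ M := fun b hb =>
      hmax b (by simp [hb])
    have hcoef : ∀ b i, (c b * g b i).coeff M = (c b).coeff (M - a b) * (g b i).coeff (a b) := by
      intro b i
      by_cases hb : c b = 0
      · rw [hb]; simp
      · have h1 := hle b hb
        have h2 : M = (M - a b) + a b := by omega
        conv_lhs => rw [h2]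
        exact Polynomial.coeff_mul_add_eq_of_natDegree_le (by omega) (hdeg b i)
    have hMj : j < M := by
      have := hj b₀
      omega
    have hz : ∀ b, (c b).coeff (M - a b) = 0 := by
      rw [Fintype.linearIndependent_iff] at hli
      refine hli (fun b => (c b).coeff (M - a b)) ?_
      funext i
      have h2 := congrArg (fun p => Polynomial.coeff p M) (h i)
      simp only [Polynomial.finsetSum_coeff, hcoef] at h2
      rw [Polynomial.coeff_eq_zero_of_natDegree_lt (lt_of_le_of_lt (hσ i) hMj)] at h2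
      simp only [Finset.sum_apply, Pi.smul_apply, smul_eq_mul, Pi.zero_apply]
      exact h2.symm
    have h3 := hz b₀
    rw [show M - a b₀ = (c b₀).natDegree by omega, Polynomial.coeff_natDegree,
      Polynomial.leadingCoeff_eq_zero] at h3
    exact hb₀.2 h3

section

variable {κ : Type*} [Fintype κ] [DecidableEq κ]

theorem prod_top (y w : κ → ℂ) (m : κ → ℕ) (s : Finset κ) :
    (∏ i ∈ s, (Polynomial.C (y i) + Polynomial.C (w i) * Polynomial.X) ^ m i).natDegree ≤
        ∑ i ∈ s, m i ∧
      (∏ i ∈ s, (Polynomial.C (y i) + Polynomial.C (w i) * Polynomial.X) ^ m i).coeff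
        (∑ i ∈ s, m i) = ∏ i ∈ s, w i ^ m i := by
  have h1 : ∀ i, (Polynomial.C (y i) + Polynomial.C (w i) * Polynomial.X).natDegree ≤ 1 := by
    intro i
    rw [add_comm]
    exact Polynomial.natDegree_linear_le
  have h2 : ∀ i, ((Polynomial.C (y i) + Polynomial.C (w i) * Polynomial.X) ^ m i).natDegree ≤
      m i := fun i => (Polynomial.natDegree_pow_le_of_le (m i) (h1 i)).trans (by omega)
  have h3 : ∀ i, ((Polynomial.C (y i) + Polynomial.C (w i) * Polynomial.X) ^ m i).coeff (m i) =
      w i ^ m i := by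
    intro i
    have := Polynomial.coeff_pow_of_natDegree_le (m := m i) (h1 i)
    rw [mul_one] at this
    rw [this]
    simp
  induction s using Finset.induction_on with
  | empty => simp
  | insert i s hi ih =>
    rw [Finset.prod_insert hi, Finset.sum_insert hi, Finset.prod_insert hi]
    refine ⟨(Polynomial.natDegree_mul_le_of_le (h2 i) ih.1), ?_⟩
    rw [Polynomial.coeff_mul_add_eq_of_natDegree_le (h2 i) ih.1, h3 i, ih.2]

theorem ln_eq_sum (f : MvPolynomial κ ℂ) (y w : κ → ℂ) :
    ln y w f = ∑ m ∈ f.support, Polynomial.C (coeff m f) *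
      ∏ i, (Polynomial.C (y i) + Polynomial.C (w i) * Polynomial.X) ^ m i := by
  conv_lhs => rw [f.as_sum]
  rw [map_sum]
  refine Finset.sum_congr rfl fun m _ => ?_
  rw [ln, aeval_monomial, Finsupp.prod_fintype _ _ (by simp)]
  rfl

theorem sum_of_mem {f : MvPolynomial κ ℂ} {e : ℕ} (hf : f.IsHomogeneous e) {m : κ →₀ ℕ}
    (hm : m ∈ f.support) : ∑ i, m i = e := by
  have := hf (mem_support_iff.mp hm)
  rw [← this, Finsupp.weight_apply, Finsupp.sum_fintype _ _ (by simp)]
  simp

/-- HBD-3c. -/
theorem natDegree_ln_le {f : MvPolynomial κ ℂ} {e : ℕ} (hf : f.IsHomogeneous e) (y w : κ → ℂ) :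
    (ln y w f).natDegree ≤ e := by
  rw [ln_eq_sum]
  refine Polynomial.natDegree_sum_le_of_forall_le _ _ fun m hm => ?_
  refine (Polynomial.natDegree_C_mul_le _ _).trans ?_
  rw [← sum_of_mem hf hm]
  exact (prod_top y w m Finset.univ).1

theorem coeff_ln_top {f : MvPolynomial κ ℂ} {e : ℕ} (hf : f.IsHomogeneous e) (y w : κ → ℂ) :
    (ln y w f).coeff e = eval w f := by
  rw [ln_eq_sum, eval_eq', Polynomial.finsetSum_coeff]
  refine Finset.sum_congr rfl fun m hm => ?_
  rw [Polynomial.coeff_C_mul]
  congr 1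
  rw [← (prod_top y w m Finset.univ).2, sum_of_mem hf hm]

end

end H79.Hart
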