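import Pool.Agent.H79.Hart.Defs

open MvPolynomial

set_option linter.unusedSectionVars false

namespace H79.Hart

open H89.Hart

variable {ι κ : Type*} [Fintype ι] [DecidableEq ι] [Fintype κ] [DecidableEq κ]

theorem local_inj {I : Ideal (MvPolynomial ι ℂ)} {r : ℕ} (hI : Smooth I r) {p : ι → ℂ}
    (hp : p ∈ cone I) (hp0 : p ≠ 0) :
    ∃ (D : MvPolynomial ι ℂ) (l : Fin r → ι → ℂ), eval p D ≠ 0 ∧
      ∀ x ∈ cone I, ∀ s ∈ N I x, (∀ j, s ⬝ᵥ l j = 0) → eval x D • s = 0 := by
  obtain ⟨g, l, hg, -, -, hmat⟩ := exists_frame hI hp hp0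
  have hdet : (matAt g l p).det ≠ 0 := by rw [hmat]; simp
  refine ⟨(mat g l).det, l, by rw [eval_det_mat]; exact hdet, ?_⟩
  intro x hx s hs hl
  rw [eval_det_mat, frame_id hI g hg l hp hp0 hdet hx hs]
  simp [hl]

/-- the contraction of a vector of polynomials with a constant vector -/
noncomputable def ctr (l : ι → ℂ) (s : ι → MvPolynomial κ ℂ) : MvPolynomial κ ℂ :=
  ∑ i, C (l i) * s i

theorem eval_ctr (l : ι → ℂ) (s : ι → MvPolynomial κ ℂ) (y : κ → ℂ) :
    eval y (ctr l s) = ev s y ⬝ᵥ l := by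
  simp [ctr, ev, dotProduct, mul_comm]

theorem ctr_homog {l : ι → ℂ} {s : ι → MvPolynomial κ ℂ} {e : ℕ}
    (hs : ∀ i, (s i).IsHomogeneous e) : (ctr l s).IsHomogeneous e := by
  refine IsHomogeneous.sum _ _ _ fun i _ => ?_
  have := (isHomogeneous_C κ (l i)).mul (hs i)
  rwa [zero_add] at this

theorem Sec.zero {I : Ideal (MvPolynomial ι ℂ)} {φ : (κ → ℂ) →ₗ[ℂ] (ι → ℂ)} {δ : ℕ}
    {s : ι → MvPolynomial κ ℂ} (hs : Sec I φ (δ + 1) s) : ev s 0 = 0 := by
  funext i
  have h1 := eval_smul_homog (hs.homog i) 0 (0 : κ → ℂ)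
  rw [smul_zero] at h1
  unfold ev
  rw [h1]
  simp

/-- Local injectivity along a section. -/
theorem Sec.local {I : Ideal (MvPolynomial ι ℂ)} {φ : (κ → ℂ) →ₗ[ℂ] (ι → ℂ)}
    (hφI : ∀ y, φ y ∈ cone I) {δ r : ℕ} {s : ι → MvPolynomial κ ℂ} (hs : Sec I φ (δ + 1) s)
    {D : MvPolynomial ι ℂ} {l : Fin r → ι → ℂ}
    (hD : ∀ x ∈ cone I, ∀ s ∈ N I x, (∀ j, s ⬝ᵥ l j = 0) → eval x D • s = 0) (x : κ → ℂ)
    (hx : ∀ j, eval x (ctr (l j) s) = 0) (i : ι) : eval (φ x) D * eval x (s i) = 0 := by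
  by_cases hx0 : x = 0
  · subst hx0
    have := congrFun hs.zero i
    unfold ev at this
    rw [this]
    simp
  · have h1 := hD (φ x) (hφI x) (ev s x) (hs.mem x hx0) (fun j => by rw [← eval_ctr]; exact hx j)
    exact congrFun h1 i

theorem common_zero {I : Ideal (MvPolynomial ι ℂ)} {r : ℕ} (hI : Smooth I r)
    {φ : (κ → ℂ) →ₗ[ℂ] (ι → ℂ)} (hφ : Function.Injective φ) (hφI : ∀ y, φ y ∈ cone I)
    {α : Type*} [Fintype α] [DecidableEq α] (δ : ℕ) (R : α → ι → MvPolynomial κ ℂ)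
    (hR : ∀ a, Sec I φ (δ + 1) (R a)) (hz : ∀ a, ∃ y, y ≠ 0 ∧ ev (R a) y = 0)
    (hq : Fintype.card α * r < Fintype.card κ) :
    ∃ z, z ≠ 0 ∧ ∀ a, ev (R a) z = 0 := by
  rcases isEmpty_or_nonempty α with hα | ⟨⟨a₀⟩⟩
  · have : Nonempty κ := Fintype.card_pos_iff.1 (by omega)
    refine ⟨fun _ => 1, fun h => ?_, fun a => hα.elim a⟩
    have := congrFun h (Classical.arbitrary κ)
    simp at this
  choose y hy0 hy using hz
  have hp0 : ∀ a, φ (y a) ≠ 0 := fun a h => hy0 a (hφ (by rw [h, map_zero]))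
  have hloc := fun a => local_inj hI (hφI (y a)) (hp0 a)
  choose D l hD0 hD using hloc
  -- the renaming maps
  have hren : ∀ (a : α) (f : MvPolynomial κ ℂ) (z : α × κ → ℂ),
      eval z (rename (fun t => (a, t)) f) = eval (fun t => z (a, t)) f := by
    intro a f z
    rw [eval_rename]
    rfl
  obtain ⟨P, hP, hPh, hPG, hqP, hdim⟩ := exists_component (α := α × Fin r)
    (fun b => rename (fun t => (b.1, t)) (ctr (l b.1 b.2) (R b.1)))
    (fun b => ⟨δ + 1, (ctr_homog (hR b.1).homog).rename_isHomogeneous⟩)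
    (fun b : α × κ => y b.1 b.2) (fun b => by
      rw [hren, eval_ctr, hy]; simp)
  have hRP : ∀ a i, rename (fun t => (a, t)) (R a i) ∈ P := by
    intro a i
    have h1 : rename (fun t => (a, t)) (H15.Hart.sub φ (D a)) *
        rename (fun t => (a, t)) (R a i) ∈ P := by
      apply mem_of_forall_cone P hP
      intro z hz
      rw [map_mul, hren, hren, H15.Hart.eval_sub]
      refine (hR a).local hφI (hD a) _ (fun j => ?_) i
      have := hz _ (hPG (a, j))
      rwa [hren] at this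
    rcases hP.mem_or_mem h1 with h2 | h2
    · exfalso
      have := hqP _ h2
      rw [hren, H15.Hart.eval_sub] at this
      exact hD0 a this
    · exact h2
  obtain ⟨z, hzP, hz0, hzl⟩ := exists_ne_zero P hP hPh (β := {a : α // a ≠ a₀} × κ)
    (fun b => X (b.1.1, b.2) - X (a₀, b.2)) (fun b => by simp) (by
      by_contra hcon
      rw [not_lt] at hcon
      have h1 := hdim.trans (add_le_add_left hcon _)
      rw [Fintype.card_prod, Fintype.card_prod, Fintype.card_prod, Fintype.card_fin] at h1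
      have h2 : Fintype.card {a : α // a ≠ a₀} = Fintype.card α - 1 := by
        rw [Fintype.card_subtype_compl, Fintype.card_subtype_eq]
      have h3 : Fintype.card α * Fintype.card κ ≤
          Fintype.card {a : α // a ≠ a₀} * Fintype.card κ + Fintype.card α * r := by
        exact_mod_cast h1
      rw [h2] at h3
      obtain ⟨m, hm⟩ : ∃ m, Fintype.card α = m + 1 :=
        ⟨Fintype.card α - 1, by have := Fintype.card_pos_iff.2 ⟨a₀⟩; omega⟩
      rw [hm] at h3 hq
      rw [Nat.add_sub_cancel, add_mul] at h3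
      omega)
  have hzz : ∀ a t, z (a, t) = z (a₀, t) := by
    intro a t
    by_cases h : a = a₀
    · rw [h]
    · have := hzl (⟨a, h⟩, t)
      simpa [sub_eq_zero] using this
  refine ⟨fun t => z (a₀, t), fun h => hz0 ?_, fun a => ?_⟩
  · funext ⟨a, t⟩
    rw [hzz]
    exact congrFun h t
  · funext i
    unfold ev
    have h1 := hzP _ (hRP a i)
    rw [hren] at h1
    have h2 : (fun t => z (a, t)) = fun t => z (a₀, t) := funext fun t => hzz a t
    rw [h2] at h1
    exact h1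

end H79.Hart
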