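import Pool.Agent.H79.Hart.LinSpace
import Pool.Agent.H79.Hart.Zeros

open MvPolynomial

set_option linter.unusedSectionVars false

namespace H79.Hart

open H89.Hart

variable {ι κ : Type*} [Fintype ι] [DecidableEq ι] [Fintype κ] [DecidableEq κ]

theorem exists_sec_space {I : Ideal (MvPolynomial ι ℂ)} {r : ℕ} (hI : Smooth I r)
    {φ : (κ → ℂ) →ₗ[ℂ] (ι → ℂ)} (hφ : Function.Injective φ) (hφI : ∀ y, φ y ∈ cone I)
    {α : Type*} [Fintype α] (δ : ℕ) (R : α → ι → MvPolynomial κ ℂ)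
    (hR : ∀ a, Sec I φ (δ + 1) (R a)) {y : κ → ℂ} (hy0 : y ≠ 0) (hy : ∀ a, ev (R a) y = 0) (k : ℕ)
    (hk : k + Fintype.card α * r * Nat.multichoose (k + 1) δ < Fintype.card κ) :
    ∃ ψ : (Fin (k + 1) → ℂ) →ₗ[ℂ] (κ → ℂ), Function.Injective ψ ∧ ψ (Pi.single 0 1) = y ∧
      ∀ x a, ev (R a) (ψ x) = 0 := by
  have hp0 : φ y ≠ 0 := fun h => hy0 (hφ (by rw [h, map_zero]))
  obtain ⟨D, l, hD0, hD⟩ := local_inj hI (hφI y) hp0
  obtain ⟨ψ, hψ, hψy, hψ0⟩ := exists_lin_space (α := α × Fin r)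
    (fun b => ctr (l b.2) (R b.1)) δ (fun b => ctr_homog (hR b.1).homog) hy0
    (fun b => by rw [eval_ctr, hy]; simp) k (Or.inl (by
      rw [Fintype.card_prod, Fintype.card_fin]; exact hk))
  refine ⟨ψ, hψ, hψy, ?_⟩
  have key : ∀ a i, H15.Hart.sub ψ (R a i) = 0 := by
    intro a i
    have h1 : H15.Hart.sub (φ ∘ₗ ψ) D * H15.Hart.sub ψ (R a i) = 0 := by
      apply MvPolynomial.funext
      intro x
      rw [map_mul, H15.Hart.eval_sub, H15.Hart.eval_sub, map_zero]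
      exact (hR a).local hφI hD (ψ x) (fun j => hψ0 x (a, j)) i
    rcases mul_eq_zero.1 h1 with h2 | h2
    · exfalso
      have h3 := congrArg (eval (Pi.single 0 1 : Fin (k + 1) → ℂ)) h2
      rw [H15.Hart.eval_sub, map_zero, LinearMap.comp_apply, hψy] at h3
      exact hD0 h3
    · exact h2
  intro x a
  funext i
  unfold ev
  rw [← H15.Hart.eval_sub, key, map_zero]
  rfl


end H79.Hart
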