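import Pool.Agent.H79.Hart.Defs
import Pool.Agent.H79.Hart.ZerosB
import Pool.Agent.H79.Hart.OneVar

/-! Lemma N: a section of small degree which is at one point a combination of independent sections
of larger degrees vanishes there. -/

open MvPolynomial

namespace H79.Hart

open H89.Hart

section A

variable {ι κ : Type*} [Fintype ι] [DecidableEq ι] [Fintype κ] [DecidableEq κ]

omit [Fintype κ] [DecidableEq κ] in
/-- a determinant with homogeneous rows -/
theorem det_isHomogeneous {s : ℕ} (M : Matrix (Fin s) (Fin s) (MvPolynomial κ ℂ)) (d : Fin s → ℕ)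
    (h : ∀ i j, (M i j).IsHomogeneous (d i)) : M.det.IsHomogeneous (∑ i, d i) := by
  rw [← Matrix.det_transpose, Matrix.det_apply]
  refine IsHomogeneous.sum _ _ _ fun σ _ => ?_
  have h1 : (∏ i, M.transpose (σ i) i).IsHomogeneous (∑ i, d i) := by
    refine IsHomogeneous.prod _ _ _ fun i _ => ?_
    exact h i (σ i)
  have h2 : (Equiv.Perm.sign σ • ∏ i, M.transpose (σ i) i) =
      C (((Equiv.Perm.sign σ : ℤˣ) : ℤ) : ℂ) * ∏ i, M.transpose (σ i) i := by
    rw [Units.smul_def, zsmul_eq_mul]
    congr 1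
  rw [h2]
  have := (isHomogeneous_C κ ((((Equiv.Perm.sign σ : ℤˣ) : ℤ) : ℂ))).mul h1
  simpa using this

theorem lemmaN_fin {I : Ideal (MvPolynomial ι ℂ)} {r : ℕ} (hI : Smooth I r)
    {φ : (κ → ℂ) →ₗ[ℂ] (ι → ℂ)} (hφ : Function.Injective φ) (hφI : ∀ y, φ y ∈ cone I)
    {s : ℕ} (hs : 0 < s) (g : Fin s → ι → MvPolynomial κ ℂ) (a : Fin s → ℕ)
    (hg : ∀ b, Sec I φ (a b) (g b))
    (hli : ∀ y, y ≠ 0 → LinearIndependent ℂ (fun b => ev (g b) y)) (j : ℕ) (hj : ∀ b, j < a b)
    (σ : ι → MvPolynomial κ ℂ) (hσ : Sec I φ j σ) {y : κ → ℂ} (hy0 : y ≠ 0)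
    (hy : ev σ y ∈ Submodule.span ℂ (Set.range fun b => ev (g b) y))
    (hq : 1 + r * (∑ b, a b + j) < Fintype.card κ) : ev σ y = 0 := by
  classical
  obtain ⟨l, hl⟩ := exists_dual (fun b => ev (g b) y) (hli y hy0)
  set A : Matrix (Fin s) (Fin s) (MvPolynomial κ ℂ) :=
    Matrix.of fun b c => ∑ k, C (l c k) * g b k with hA
  set S : Fin s → MvPolynomial κ ℂ := fun c => ∑ k, C (l c k) * σ k with hS
  set cb : Fin s → MvPolynomial κ ℂ := fun b => ∑ c, S c * A.adjugate c b with hcb
  set R : ι → MvPolynomial κ ℂ := fun k => A.det * σ k - ∑ b, cb b * g b k with hR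
  have hAh : ∀ b c, (A b c).IsHomogeneous (a b) := by
    intro b c
    refine IsHomogeneous.sum _ _ _ fun k _ => ?_
    simpa using (isHomogeneous_C κ (l c k)).mul ((hg b).homog k)
  have hSh : ∀ c, (S c).IsHomogeneous j := by
    intro c
    refine IsHomogeneous.sum _ _ _ fun k _ => ?_
    simpa using (isHomogeneous_C κ (l c k)).mul (hσ.homog k)
  have hcbe : ∀ b, cb b = (A.updateRow b S).det := by
    intro b
    rw [← Matrix.cramer_transpose_apply, Matrix.cramer_eq_adjugate_mulVec, ← Matrix.adjugate_transpose,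
      Matrix.mulVec, dotProduct]
    refine Finset.sum_congr rfl fun c _ => ?_
    rw [Matrix.transpose_apply, mul_comm]
  have hdet : A.det.IsHomogeneous (∑ b, a b) := det_isHomogeneous A a hAh
  have hcbg : ∀ b k, (cb b * g b k).IsHomogeneous (∑ b, a b + j) := by
    intro b k
    have h1 : (cb b).IsHomogeneous (∑ i, Function.update a b j i) := by
      rw [hcbe]
      refine det_isHomogeneous _ _ fun i c => ?_
      by_cases h : i = b
      · subst h
        rw [Matrix.updateRow_self, Function.update_self]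
        exact hSh c
      · rw [Matrix.updateRow_ne h, Function.update_of_ne h]
        exact hAh i c
    have h2 := h1.mul ((hg b).homog k)
    have h3 : (∑ i, Function.update a b j i) + a b = ∑ b, a b + j := by
      rw [Finset.sum_update_of_mem (Finset.mem_univ b)]
      have := Finset.add_sum_erase Finset.univ a (Finset.mem_univ b)
      rw [← Finset.sdiff_singleton_eq_erase] at this
      omega
    rw [h3] at h2
    exact h2
  have hRh : ∀ k, (R k).IsHomogeneous (∑ b, a b + j) := by
    intro k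
    refine (hdet.mul (hσ.homog k)).sub ?_
    exact IsHomogeneous.sum _ _ _ fun b _ => hcbg b k
  have hevR : ∀ x, ev R x = eval x A.det • ev σ x - ∑ b, eval x (cb b) • ev (g b) x := by
    intro x
    funext k
    simp only [ev, hR, map_sub, map_mul, map_sum, Pi.sub_apply, Pi.smul_apply, smul_eq_mul,
      Finset.sum_apply]
  have hRsec : Sec I φ (∑ b, a b + j) R := by
    refine ⟨hRh, fun x hx => ?_⟩
    rw [hevR]
    refine Submodule.sub_mem _ (Submodule.smul_mem _ _ (hσ.mem x hx)) ?_
    exact Submodule.sum_mem _ fun b _ => Submodule.smul_mem _ _ ((hg b).mem x hx)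
  -- values at `y`
  set Ay : Matrix (Fin s) (Fin s) ℂ := (eval y).mapMatrix A with hAy
  have hAyv : ∀ b c, Ay b c = ev (g b) y ⬝ᵥ l c := by
    intro b c
    simp only [hAy, hA, RingHom.mapMatrix_apply, Matrix.map_apply, Matrix.of_apply, map_sum,
      map_mul, eval_C, dotProduct, ev]
    exact Finset.sum_congr rfl fun k _ => mul_comm _ _
  have hAy1 : Ay = 1 := by
    ext b c
    rw [hAyv, hl, Matrix.one_apply]
  have hdety : eval y A.det = 1 := by
    rw [RingHom.map_det, ← hAy, hAy1, Matrix.det_one]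
  have hRy : ev R y = 0 := by
    rw [hevR]
    have h1 := cramer_id (fun b => ev (g b) y) l Ay hAyv (ev σ y) hy
    have h2 : ∀ b, eval y (cb b) = ∑ c, (ev σ y ⬝ᵥ l c) * Ay.adjugate c b := by
      intro b
      simp only [hcb, map_sum, map_mul]
      refine Finset.sum_congr rfl fun c _ => ?_
      congr 1
      · simp only [hS, map_sum, map_mul, eval_C, dotProduct, ev]
        exact Finset.sum_congr rfl fun k _ => mul_comm _ _
      · rw [hAy, ← RingHom.map_adjugate]
        rfl
    rw [RingHom.map_det, ← hAy, h1, sub_eq_zero]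
    exact Finset.sum_congr rfl fun b _ => by rw [h2 b]
  -- the plane
  obtain ⟨δ, hδ⟩ : ∃ δ, ∑ b, a b + j = δ + 1 := by
    have h1 : 0 < a ⟨0, hs⟩ := by have := hj ⟨0, hs⟩; omega
    have h2 : a ⟨0, hs⟩ ≤ ∑ b, a b := Finset.single_le_sum (fun _ _ => Nat.zero_le _)
      (Finset.mem_univ _)
    exact ⟨∑ b, a b + j - 1, by omega⟩
  obtain ⟨ψ, hψ, hψ0, hψR⟩ := exists_sec_space hI hφ hφI (α := Unit) δ (fun _ => R)
    (fun _ => by rw [← hδ]; exact hRsec) hy0 (fun _ => hRy) 1 (by
      rw [Fintype.card_unit, one_mul, Nat.multichoose_two, ← hδ]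
      exact hq)
  set w : κ → ℂ := ψ (Pi.single 1 1) with hw
  have hline : ∀ t : ℂ, y + t • w = ψ (Pi.single 0 1 + t • Pi.single 1 1) := by
    intro t
    rw [map_add, map_smul, hψ0]
  have hline0 : ∀ t : ℂ, y + t • w ≠ 0 := by
    intro t h
    rw [hline, ← map_zero ψ] at h
    have := congrFun (hψ h) 0
    simp at this
  have hw0 : w ≠ 0 := by
    intro h
    rw [hw, ← map_zero ψ] at h
    have := congrFun (hψ h) 1
    simp at this
  have hRline : ∀ t : ℂ, ev R (y + t • w) = 0 := by
    intro t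
    rw [hline]
    exact hψR _ ()
  -- restriction to the line
  obtain ⟨c', hc'⟩ := comb_of_mul (fun b i => ln y w (g b i))
    (fun t => by
      simp only [eval_ln]
      exact hli (y + t • w) (hline0 t))
    (fun i => ln y w (σ i)) (ln y w A.det)
    (by
      intro h
      have := congrArg (Polynomial.eval 0) h
      rw [eval_ln, zero_smul, add_zero, hdety, Polynomial.eval_zero] at this
      exact one_ne_zero this)
    (fun b => ln y w (cb b))
    (by
      intro i
      refine Polynomial.funext fun t => ?_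
      simp only [Polynomial.eval_mul, Polynomial.eval_finsetSum, eval_ln]
      have h1 := congrFun (hRline t) i
      rw [hevR] at h1
      simp only [Pi.sub_apply, Pi.smul_apply, smul_eq_mul, Finset.sum_apply, Pi.zero_apply, ev] at h1
      linear_combination h1)
  have hz := comb_eq_zero (fun b i => ln y w (g b i)) a
    (fun b i => natDegree_ln_le ((hg b).homog i) y w)
    (by
      have := hli w hw0
      simp only [coeff_ln_top ((hg _).homog _) y w]
      exact this)
    (fun i => ln y w (σ i)) j hj (fun i => natDegree_ln_le (hσ.homog i) y w) c' hc'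
  funext i
  have h1 := congrArg (Polynomial.eval 0) (hz i)
  rw [eval_ln, zero_smul, add_zero, Polynomial.eval_zero] at h1
  exact h1

/-- **Lemma N.** -/
theorem lemmaN {I : Ideal (MvPolynomial ι ℂ)} {r : ℕ} (hI : Smooth I r)
    {φ : (κ → ℂ) →ₗ[ℂ] (ι → ℂ)} (hφ : Function.Injective φ) (hφI : ∀ y, φ y ∈ cone I)
    {β : Type*} [Fintype β] (g : β → ι → MvPolynomial κ ℂ) (a : β → ℕ)
    (hg : ∀ b, Sec I φ (a b) (g b))
    (hli : ∀ y, y ≠ 0 → LinearIndependent ℂ (fun b => ev (g b) y)) (j : ℕ) (hj : ∀ b, j < a b)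
    (σ : ι → MvPolynomial κ ℂ) (hσ : Sec I φ j σ) {y : κ → ℂ} (hy0 : y ≠ 0)
    (hy : ev σ y ∈ Submodule.span ℂ (Set.range fun b => ev (g b) y))
    (hq : 1 + r * (∑ b, a b + j) < Fintype.card κ) : ev σ y = 0 := by
  classical
  set e := (Fintype.equivFin β).symm with he
  rcases Nat.eq_zero_or_pos (Fintype.card β) with h0 | hpos
  · have : IsEmpty β := Fintype.card_eq_zero_iff.1 h0
    rw [Set.range_eq_empty, Submodule.span_empty, Submodule.mem_bot] at hy
    exact hy
  · refine lemmaN_fin hI hφ hφI hpos (fun b => g (e b)) (fun b => a (e b)) (fun b => hg _)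
      (fun y hy => (hli y hy).comp e e.injective) j (fun b => hj _) σ hσ hy0 ?_ ?_
    · have h1 : (Set.range fun b => ev (g (e b)) y) = Set.range fun b => ev (g b) y :=
        e.surjective.range_comp (fun b => ev (g b) y)
      rw [h1]
      exact hy
    · rw [Equiv.sum_comp e a]
      exact hq

end A

end H79.Hart
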