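import Pool.Agent.H79.Hart.Defs

/-!
# Linear subspaces on which forms vanish (MP_9a3fdb_ag, job HBD-1)
-/

open MvPolynomial

set_option linter.unusedSectionVars false

namespace H79.Hart

open H89.Hart

/-- If `P` vanishes on the hyperplane `x s = 0`, its coefficients at the monomials without `X s`
vanish. -/
theorem coeff_eq_zero_of_vanish {n : Type*} [Fintype n] [DecidableEq n] (s : n)
    (P : MvPolynomial n ℂ) (hP : ∀ x : n → ℂ, x s = 0 → eval x P = 0) (m : n →₀ ℕ)
    (hm : m s = 0) : coeff m P = 0 := by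
  have h1 : P ∈ Ideal.span {(X s : MvPolynomial n ℂ)} := by
    set g : MvPolynomial n ℂ →ₐ[ℂ] MvPolynomial n ℂ :=
      aeval (fun i => if i = s then 0 else X i) with hg
    have h2 : g P = 0 := by
      refine MvPolynomial.funext fun x => ?_
      have h4 : ∀ Q : MvPolynomial n ℂ,
          eval x (g Q) = eval (fun i => if i = s then 0 else x i) Q := by
        intro Q
        induction Q using MvPolynomial.induction_on with
        | C a => simp [hg]
        | add p q hp hq => simp only [map_add, hp, hq]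
        | mul_X p i hp =>
          rw [map_mul, map_mul, map_mul, hp, hg, aeval_X, eval_X]
          by_cases h : i = s
          · simp [h]
          · simp [h]
      rw [h4, hP _ (by simp), map_zero]
    have h3 : (Ideal.Quotient.mkₐ ℂ (Ideal.span {(X s : MvPolynomial n ℂ)})).comp g =
        Ideal.Quotient.mkₐ ℂ (Ideal.span {(X s : MvPolynomial n ℂ)}) := by
      apply MvPolynomial.algHom_ext
      intro i
      rw [AlgHom.comp_apply, hg, aeval_X]
      by_cases h : i = s
      · rw [if_pos h, map_zero, h]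
        symm
        rw [Ideal.Quotient.mkₐ_eq_mk, Ideal.Quotient.eq_zero_iff_mem]
        exact Ideal.mem_span_singleton_self _
      · rw [if_neg h]
    have h5 := DFunLike.congr_fun h3 P
    rw [AlgHom.comp_apply, h2, map_zero, Ideal.Quotient.mkₐ_eq_mk] at h5
    exact Ideal.Quotient.eq_zero_iff_mem.1 h5.symm
  obtain ⟨Q, rfl⟩ := Ideal.mem_span_singleton.1 h1
  rw [coeff_X_mul', if_neg]
  simp [hm]

variable {κ : Type*} [Fintype κ] [DecidableEq κ]

/-- The linear map extended by one more vector `w`. -/
noncomputable def extend {k : ℕ} (ψ : (Fin (k + 1) → ℂ) →ₗ[ℂ] (κ → ℂ)) (w : κ → ℂ) :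
    (Fin (k + 2) → ℂ) →ₗ[ℂ] (κ → ℂ) where
  toFun x := ψ (x ∘ Fin.castSucc) + x (Fin.last _) • w
  map_add' x x' := by
    have : (x + x') ∘ Fin.castSucc = x ∘ Fin.castSucc + x' ∘ Fin.castSucc := rfl
    rw [this, map_add, Pi.add_apply, add_smul]
    abel
  map_smul' c x := by
    have : (c • x) ∘ Fin.castSucc = c • (x ∘ Fin.castSucc) := rfl
    rw [this, map_smul, Pi.smul_apply, smul_assoc, RingHom.id_apply, smul_add]

theorem extend_apply {k : ℕ} (ψ : (Fin (k + 1) → ℂ) →ₗ[ℂ] (κ → ℂ)) (w : κ → ℂ)
    (x : Fin (k + 2) → ℂ) :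
    extend ψ w x = ψ (x ∘ Fin.castSucc) + x (Fin.last _) • w := rfl

/-- The generic extension, as a polynomial whose coefficients are polynomials in `w`. -/
noncomputable def Theta {k : ℕ} (ψ : (Fin (k + 1) → ℂ) →ₗ[ℂ] (κ → ℂ)) :
    MvPolynomial κ ℂ →+* MvPolynomial (Fin (k + 2)) (MvPolynomial κ ℂ) :=
  eval₂Hom (C.comp C) (fun i => ∑ a : Fin (k + 1), C (C (ψ (Pi.single a 1) i)) *
    X (Fin.castSucc a) + C (X i) * X (Fin.last _))

theorem Theta_X {k : ℕ} (ψ : (Fin (k + 1) → ℂ) →ₗ[ℂ] (κ → ℂ)) (i : κ) :
    Theta ψ (X i) = ∑ a : Fin (k + 1), C (C (ψ (Pi.single a 1) i)) *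
      X (Fin.castSucc a) + C (X i) * X (Fin.last _) := by
  rw [Theta, coe_eval₂Hom, eval₂_X]

theorem Theta_C {k : ℕ} (ψ : (Fin (k + 1) → ℂ) →ₗ[ℂ] (κ → ℂ)) (c : ℂ) :
    Theta ψ (C c) = C (C c) := by
  rw [Theta, coe_eval₂Hom, eval₂_C]
  rfl

theorem eval_map_Theta_X {k : ℕ} (ψ : (Fin (k + 1) → ℂ) →ₗ[ℂ] (κ → ℂ)) (w : κ → ℂ)
    (x : Fin (k + 2) → ℂ) (i : κ) :
    eval x (map (eval w) (Theta ψ (X i))) = extend ψ w x i := by
  rw [Theta_X, extend_apply, H15.Hart.apply_eq_sum ψ]
  simp only [map_add, map_sum, map_mul, map_C, map_X, eval_C, eval_X, Pi.add_apply,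
    Finset.sum_apply, Pi.smul_apply, smul_eq_mul, Function.comp_apply]
  congr 1
  · exact Finset.sum_congr rfl fun a _ => mul_comm _ _
  · exact mul_comm _ _

theorem eval_Theta {k : ℕ} (ψ : (Fin (k + 1) → ℂ) →ₗ[ℂ] (κ → ℂ)) (w : κ → ℂ)
    (x : Fin (k + 2) → ℂ) (f : MvPolynomial κ ℂ) :
    eval x (map (eval w) (Theta ψ f)) = eval (extend ψ w x) f := by
  have h : ((eval x).comp ((map (eval w)).comp (Theta ψ)) : MvPolynomial κ ℂ →+* ℂ) =
      eval (extend ψ w x) := by
    apply MvPolynomial.ringHom_ext
    · intro c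
      rw [RingHom.comp_apply, RingHom.comp_apply, Theta_C, map_C, eval_C, eval_C, eval_C]
    · intro i
      rw [RingHom.comp_apply, RingHom.comp_apply, eval_map_Theta_X, eval_X]
  exact RingHom.congr_fun h f

theorem map_Theta {k : ℕ} (ψ : (Fin (k + 1) → ℂ) →ₗ[ℂ] (κ → ℂ)) (w : κ → ℂ)
    (f : MvPolynomial κ ℂ) :
    map (eval w) (Theta ψ f) = H15.Hart.sub (extend ψ w) f := by
  refine MvPolynomial.funext fun x => ?_
  rw [eval_Theta, H15.Hart.eval_sub]

/-- HBD-1. Linear subspaces on which forms vanish. -/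
theorem exists_lin_space {α : Type*} [Fintype α] (h : α → MvPolynomial κ ℂ) (δ : ℕ)
    (hh : ∀ a, (h a).IsHomogeneous (δ + 1)) {y : κ → ℂ} (hy0 : y ≠ 0)
    (hy : ∀ a, eval y (h a) = 0) (k : ℕ)
    (hk : k + Fintype.card α * Nat.multichoose (k + 1) δ < Fintype.card κ ∨ k = 0) :
    ∃ ψ : (Fin (k + 1) → ℂ) →ₗ[ℂ] (κ → ℂ), Function.Injective ψ ∧ ψ (Pi.single 0 1) = y ∧
      ∀ x a, eval (ψ x) (h a) = 0 := by
  classical
  induction k with
  | zero =>
    refine ⟨(LinearMap.proj 0 : (Fin 1 → ℂ) →ₗ[ℂ] ℂ).smulRight y, ?_, ?_, ?_⟩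
    · rw [← LinearMap.ker_eq_bot, LinearMap.ker_eq_bot']
      intro x hx
      rw [LinearMap.smulRight_apply, LinearMap.proj_apply] at hx
      rcases smul_eq_zero.1 hx with h1 | h1
      · funext i
        have hi : i = 0 := by
          apply Fin.ext
          have := i.2
          simp only [Fin.val_zero]
          omega
        rw [hi, h1]
        rfl
      · exact absurd h1 hy0
    · simp
    · intro x a
      rw [LinearMap.smulRight_apply, LinearMap.proj_apply]
      rw [eval_smul_homog (hh a), hy, mul_zero]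
  | succ k ih =>
    have hk1 : k + 1 + Fintype.card α * Nat.multichoose (k + 1 + 1) δ < Fintype.card κ := by
      rcases hk with h1 | h1
      · exact h1
      · omega
    have hmono : Nat.multichoose (k + 1) δ ≤ Nat.multichoose (k + 1 + 1) δ := by
      rcases δ with _ | d
      · rw [Nat.multichoose_zero_right, Nat.multichoose_zero_right]
      · rw [Nat.multichoose_succ_succ (k + 1) d]
        exact Nat.le_add_right _ _
    have hmul := Nat.mul_le_mul_left (Fintype.card α) hmono
    obtain ⟨ψ, hψ, hψy, hψh⟩ := ih (Or.inl (by omega))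
    obtain ⟨π, hπ⟩ := LinearMap.exists_leftInverse_of_injective ψ (LinearMap.ker_eq_bot.2 hψ)
    set H : (α × Sym (Fin (k + 2)) δ) ⊕ Fin (k + 1) → MvPolynomial κ ℂ :=
      Sum.elim (fun p => coeff (Multiset.toFinsupp (p.2 : Multiset (Fin (k + 2))) +
        Finsupp.single (Fin.last _) 1) (Theta ψ (h p.1))) (fun j => H15.Hart.lin (H15.Hart.row π j))
      with hH
    have hzero : ∀ a, H15.Hart.sub (extend ψ 0) (h a) = 0 := by
      intro a
      refine MvPolynomial.funext fun x => ?_
      rw [H15.Hart.eval_sub, extend_apply, smul_zero, add_zero, hψh, map_zero]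
    obtain ⟨w, hw0, hw⟩ := Pool.Agent.H6.exists_ne_zero_common_zero H (by
      rintro (⟨a, m⟩ | j)
      · rw [hH, Sum.elim_inl, ← coeff_map, map_Theta, hzero, coeff_zero]
      · rw [hH, Sum.elim_inr, H15.Hart.eval_lin, dotProduct_zero]) (by
      rw [Nat.card_eq_fintype_card, Nat.card_eq_fintype_card, Fintype.card_sum, Fintype.card_prod,
        Sym.card_sym_eq_multichoose, Fintype.card_fin, Fintype.card_fin, add_comm]
      exact hk1)
    have hπw : π w = 0 := by
      funext j
      have := hw (Sum.inr j)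
      rw [hH, Sum.elim_inr, H15.Hart.eval_lin, H15.Hart.row_dot] at this
      exact this
    have hsub : ∀ a, H15.Hart.sub (extend ψ w) (h a) = 0 := by
      intro a
      ext m
      rw [coeff_zero]
      by_cases hm : m.degree = δ + 1
      · by_cases hl : m (Fin.last _) = 0
        · refine coeff_eq_zero_of_vanish (Fin.last (k + 1)) _ (fun x hx => ?_) m hl
          rw [H15.Hart.eval_sub, extend_apply, hx, zero_smul, add_zero, hψh]
        · have hle : Finsupp.single (Fin.last (k + 1)) 1 ≤ m := by
            rw [Finsupp.single_le_iff]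
            omega
          set m' := m - Finsupp.single (Fin.last (k + 1)) 1 with hm'
          have hmm : m' + Finsupp.single (Fin.last (k + 1)) 1 = m := tsub_add_cancel_of_le hle
          have hdeg : m'.degree = δ := by
            have := congrArg Finsupp.degree hmm
            rw [map_add, Finsupp.degree_single, hm] at this
            omega
          have hcard : Multiset.card (Finsupp.toMultiset m') = δ := by
            rw [Finsupp.card_toMultiset, ← hdeg]
            rfl
          have := hw (Sum.inl (a, ⟨Finsupp.toMultiset m', hcard⟩))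
          rw [hH, Sum.elim_inl, ← coeff_map, map_Theta] at this
          simp only [Sym.coe_mk] at this
          rw [Finsupp.toMultiset_toFinsupp, hmm] at this
          exact this
      · by_contra hne
        exact hm (by
          have := H15.Hart.sub_homog (extend ψ w) (hh a) hne
          rw [Finsupp.degree_eq_weight_one]
          exact this)
    refine ⟨extend ψ w, ?_, ?_, ?_⟩
    · rw [← LinearMap.ker_eq_bot, LinearMap.ker_eq_bot']
      intro x hx
      rw [extend_apply] at hx
      have h1 : x ∘ Fin.castSucc = 0 := by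
        have h2 := congrArg π hx
        rw [map_add, map_smul, hπw, smul_zero, add_zero, map_zero] at h2
        have h3 := LinearMap.congr_fun hπ (x ∘ Fin.castSucc)
        rw [LinearMap.comp_apply, LinearMap.id_apply] at h3
        rw [← h3, h2]
      rw [h1, map_zero, zero_add] at hx
      have h4 : x (Fin.last _) = 0 := by
        rcases smul_eq_zero.1 hx with h2 | h2
        · exact h2
        · exact absurd h2 hw0
      funext i
      refine Fin.lastCases h4 (fun i => ?_) i
      exact congrFun h1 i
    · rw [extend_apply, ← hψy]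
      have h1 : (Pi.single 0 1 : Fin (k + 2) → ℂ) ∘ Fin.castSucc = Pi.single 0 1 := by
        funext i
        simp only [Function.comp, Pi.single_apply]
        by_cases hi : i = 0
        · subst hi; simp
        · rw [if_neg hi, if_neg]
          intro h2
          exact hi (Fin.castSucc_injective _ (by rw [h2]; rfl))
      have h2 : (Pi.single 0 1 : Fin (k + 2) → ℂ) (Fin.last _) = 0 := by
        rw [Pi.single_apply, if_neg]
        intro h
        exact absurd (congrArg Fin.val h) (by simp)
      rw [h1, h2, zero_smul, add_zero]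
    · intro x a
      rw [← H15.Hart.eval_sub, hsub, map_zero]

end H79.Hart
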