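import Pool.Agent.H79.Hart.Grading

/-! `TT t` agrees locally with elements of `I` up to order 2 (HBD-10). -/

open MvPolynomial

set_option linter.unusedSectionVars false

namespace H79.Hart

open H89.Hart

variable {α μ : Type*} [Fintype α] [DecidableEq α] [Fintype μ] [DecidableEq μ]

theorem eval_elim_rename (t : MvPolynomial α ℂ) (m : α → ℂ) (z : μ → ℂ) :
    eval (Sum.elim m z) (rename Sum.inl t) = eval m t := by
  rw [eval_rename]; rfl

theorem eval_TT_zero (t : μ → MvPolynomial α ℂ) (m : α → ℂ) :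
    eval (Sum.elim m 0) (TT t) = 0 := by
  unfold TT
  rw [map_sum]
  refine Finset.sum_eq_zero fun j _ => ?_
  rw [map_mul, eval_X]
  simp

theorem dif_TT (t : μ → MvPolynomial α ℂ) (m : α → ℂ) :
    dif (TT t) (Sum.elim m 0) = (Sum.elim 0 (fun j => eval m (t j)) : α ⊕ μ → ℂ) := by
  unfold TT
  rw [dif_sum]
  simp only [dif_mul, dif_X, eval_X, Sum.elim_inr, Pi.zero_apply, zero_smul, add_zero,
    eval_elim_rename]
  funext x
  rw [Finset.sum_apply]
  rcases x with a | j
  · simp [Pi.single_apply]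
  · simp [Pi.single_apply]

theorem TT_mem_Fil (t : μ → MvPolynomial α ℂ) : TT t ∈ Fil α μ 1 := by
  rw [mem_Fil]
  intro b hb
  rw [zc_TT, if_neg (by omega)]

/-- the restriction to `z = 0` -/
noncomputable def res0 (f : MvPolynomial (α ⊕ μ) ℂ) : MvPolynomial α ℂ :=
  aeval (Sum.elim X 0 : α ⊕ μ → MvPolynomial α ℂ) f

theorem eval_res0 (f : MvPolynomial (α ⊕ μ) ℂ) (m : α → ℂ) :
    eval m (res0 f) = eval (Sum.elim m 0) f := by
  unfold res0
  induction f using MvPolynomial.induction_on with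
  | C c => simp
  | add p q hp hq => rw [map_add, map_add, map_add, hp, hq]
  | mul_X p n hp =>
    rw [map_mul, map_mul, map_mul, hp, aeval_X, eval_X]
    rcases n with a | j
    · simp
    · simp

theorem sub_res0_mem (f : MvPolynomial (α ⊕ μ) ℂ) : f - rename Sum.inl (res0 f) ∈ Fil α μ 1 := by
  rw [mem_Fil]
  intro b hb
  obtain rfl : b = 0 := by omega
  apply MvPolynomial.funext
  intro x
  obtain ⟨m, z, rfl⟩ : ∃ m z, x = Sum.elim m z := ⟨x ∘ Sum.inl, x ∘ Sum.inr, by simp⟩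
  rw [eval_zc, coeff_zero_ln, map_sub, eval_elim_rename, eval_res0, sub_self, map_zero]

/-- the local statement -/
theorem local_order {I : Ideal (MvPolynomial (α ⊕ μ) ℂ)} {r : ℕ} (hI : Smooth I r)
    (hL : ∀ m : α → ℂ, (Sum.elim m 0 : α ⊕ μ → ℂ) ∈ cone I) (t : μ → MvPolynomial α ℂ)
    (ht : ∀ m : α → ℂ, m ≠ 0 →
      (Sum.elim 0 (fun j => eval m (t j)) : α ⊕ μ → ℂ) ∈ N I (Sum.elim m 0))
    (m₀ : α → ℂ) (hm₀ : m₀ ≠ 0) :
    ∃ u : MvPolynomial α ℂ, eval m₀ u ≠ 0 ∧ rename Sum.inl u * TT t ∈ I ⊔ Fil α μ 2 := by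
  obtain ⟨a, ha⟩ : ∃ a, m₀ a ≠ 0 := by
    by_contra h
    push Not at h
    exact hm₀ (funext h)
  have hp0 : (Sum.elim m₀ 0 : α ⊕ μ → ℂ) ≠ 0 := by
    intro h
    exact ha (congrFun h (Sum.inl a))
  obtain ⟨g, l, hg, -, -, hmat⟩ := exists_frame hI (hL m₀) hp0
  have hdet : (matAt g l (Sum.elim m₀ 0)).det ≠ 0 := by rw [hmat]; simp
  set c : Fin r → MvPolynomial (α ⊕ μ) ℂ := fun i =>
    ∑ j, (∑ k, C (l j (Sum.inr k)) * rename Sum.inl (t k)) * (mat g l).adjugate j i with hc
  set H := (mat g l).det * TT t - ∑ i, c i * g i with hH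
  have hg0 : ∀ m i, eval (Sum.elim m 0) (g i) = 0 := fun m i => hL m _ (hg i)
  have hc0 : ∀ m i, eval (Sum.elim m 0) (c i) =
      ∑ j, ((Sum.elim 0 (fun j => eval m (t j)) : α ⊕ μ → ℂ) ⬝ᵥ l j) *
        (matAt g l (Sum.elim m 0)).adjugate j i := by
    intro m i
    rw [hc]
    beta_reduce
    rw [map_sum]
    refine Finset.sum_congr rfl fun j _ => ?_
    rw [map_mul, eval_adj_mat, map_sum]
    congr 1
    rw [dotProduct, Fintype.sum_sum_type]
    simp only [Sum.elim_inl, Pi.zero_apply, zero_mul, Finset.sum_const_zero, zero_add,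
      Sum.elim_inr]
    refine Finset.sum_congr rfl fun k _ => ?_
    rw [map_mul, eval_C, eval_elim_rename, mul_comm]
  have hHmem : H ∈ Fil α μ 2 := by
    rw [mem_Fil]
    intro b hb
    have hb' : b = 0 ∨ b = 1 := by omega
    rcases hb' with rfl | rfl
    · apply MvPolynomial.funext
      intro x
      obtain ⟨m, z, rfl⟩ : ∃ m z, x = Sum.elim m z := ⟨x ∘ Sum.inl, x ∘ Sum.inr, by simp⟩
      rw [eval_zc, coeff_zero_ln, hH, map_sub, map_mul, eval_TT_zero, mul_zero, map_sum, map_zero,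
        Finset.sum_eq_zero, sub_zero]
      intro i _
      rw [map_mul, hg0, mul_zero]
    · have key : X (Sum.inl a) * zc 1 H = 0 := by
        apply MvPolynomial.funext
        intro x
        obtain ⟨m, z, rfl⟩ : ∃ m z, x = Sum.elim m z := ⟨x ∘ Sum.inl, x ∘ Sum.inr, by simp⟩
        rw [map_mul, map_zero, eval_X, Sum.elim_inl]
        by_cases hm : m = 0
        · subst hm; simp
        · rw [eval_zc, coeff_one_ln]
          have h1 : dif H (Sum.elim m 0) = 0 := by
            rw [hH, dif_sub, dif_mul, eval_TT_zero, zero_smul, add_zero, dif_TT, dif_sum,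
              eval_det_mat, frame_id hI g hg l (hL m₀) hp0 hdet (hL m) (ht m hm), sub_eq_zero]
            refine Finset.sum_congr rfl fun i _ => ?_
            rw [dif_mul, hg0, zero_smul, add_zero, hc0]
          rw [h1, zero_dotProduct, mul_zero]
      rcases mul_eq_zero.1 key with h | h
      · exact absurd h (X_ne_zero _)
      · exact h
  clear_value H c
  refine ⟨res0 (mat g l).det, ?_, ?_⟩
  · rw [eval_res0, eval_det_mat]
    exact hdet
  · have e0 : ∀ A B T S : MvPolynomial (α ⊕ μ) ℂ, B * T = S + ((A * T - S) - (A - B) * T) := by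
      intro A B T S; ring
    have e1 : rename Sum.inl (res0 (mat g l).det) * TT t = ∑ i, c i * g i +
        (H - ((mat g l).det - rename Sum.inl (res0 (mat g l).det)) * TT t) := by
      have e2 := e0 (mat g l).det (rename Sum.inl (res0 (mat g l).det)) (TT t) (∑ i, c i * g i)
      exact e2.trans (by rw [hH])
    rw [e1]
    refine Ideal.add_mem _ (Ideal.mem_sup_left ?_) (Ideal.mem_sup_right ?_)
    · exact Ideal.sum_mem _ fun i _ => Ideal.mul_mem_left _ _ (hg i)
    · have h3 : ((mat g l).det - rename Sum.inl (res0 (mat g l).det)) * TT t ∈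
          Fil α μ (1 + 1) := Fil_mul (a := 1) (b := 1) (sub_res0_mem _) (TT_mem_Fil t)
      exact Ideal.sub_mem _ hHmem h3

/-- HBD-10. -/
theorem T_order {I : Ideal (MvPolynomial (α ⊕ μ) ℂ)} {r : ℕ} (hI : Smooth I r)
    (hL : ∀ m : α → ℂ, (Sum.elim m 0 : α ⊕ μ → ℂ) ∈ cone I) (t : μ → MvPolynomial α ℂ)
    (ht : ∀ m : α → ℂ, m ≠ 0 →
      (Sum.elim 0 (fun j => eval m (t j)) : α ⊕ μ → ℂ) ∈ N I (Sum.elim m 0))
    (a : α) : ∃ M : ℕ, X (Sum.inl a) ^ M * TT t ∈ I ⊔ Fil α μ 2 := by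
  let U : Ideal (MvPolynomial α ℂ) :=
    { carrier := {u | rename Sum.inl u * TT t ∈ I ⊔ Fil α μ 2}
      add_mem' := by
        intro u v hu hv
        rw [Set.mem_ofPred_eq] at hu hv ⊢
        rw [map_add, add_mul]
        exact Ideal.add_mem _ hu hv
      zero_mem' := by
        rw [Set.mem_ofPred_eq, map_zero, zero_mul]
        exact Ideal.zero_mem _
      smul_mem' := by
        intro c u hu
        rw [Set.mem_ofPred_eq] at hu ⊢
        rw [smul_eq_mul, map_mul, mul_assoc]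
        exact Ideal.mul_mem_left _ _ hu }
  have hU : ∀ u : MvPolynomial α ℂ, u ∈ U ↔ rename Sum.inl u * TT t ∈ I ⊔ Fil α μ 2 :=
    fun u => Iff.rfl
  have hrad : (X a : MvPolynomial α ℂ) ∈ U.radical := by
    rw [← vanishingIdeal_zeroLocus_eq_radical (K := ℂ), mem_vanishingIdeal_iff]
    intro m hm
    by_cases hm0 : m = 0
    · subst hm0; simp
    · exfalso
      obtain ⟨u, hu1, hu2⟩ := local_order hI hL t ht m hm0
      have := (mem_zeroLocus_iff.1 hm) u ((hU u).2 hu2)
      rw [aeval_eq_eval] at this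
      exact hu1 this
  obtain ⟨M, hM⟩ := hrad
  refine ⟨M, ?_⟩
  have := (hU _).1 hM
  rwa [map_pow, rename_X] at this

end H79.Hart
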