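import Pool.Agent.H79.Hart.Defs

/-!
HBD-7 (specification: helper79, proofs: helper51).  The ideal of the forms `TT (t i)`:
nonzerodivisors and the Nullstellensatz.
-/

open MvPolynomial

set_option autoImplicit false
set_option linter.unusedSectionVars false

namespace H79.Hart

open H89.Hart

namespace PT

variable {α μ : Type*} [Fintype α] [DecidableEq α] [Fintype μ] [DecidableEq μ]

/-- the ideal generated by the variables `X (inl b)`, `b ∈ B` -/
noncomputable def XB (α μ : Type*) [Fintype α] [DecidableEq α] [Fintype μ] [DecidableEq μ]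
    (B : Finset α) : Ideal (MvPolynomial (α ⊕ μ) ℂ) :=
  Ideal.span ((fun b => X (Sum.inl b)) '' (B : Set α))

/-- the ideal generated by the `TT (t i)` and the variables `X (inl b)`, `b ∈ B` -/
noncomputable def JB {r : ℕ} (t : Fin r → μ → MvPolynomial α ℂ) (B : Finset α) :
    Ideal (MvPolynomial (α ⊕ μ) ℂ) := JT t ⊔ XB α μ B

omit [Fintype α] [DecidableEq α] [Fintype μ] [DecidableEq μ] in
theorem eval_rename_inl (m : α → ℂ) (z : μ → ℂ) (p : MvPolynomial α ℂ) :
    eval (Sum.elim m z) (rename Sum.inl p : MvPolynomial (α ⊕ μ) ℂ) = eval m p := by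
  rw [eval_rename, Sum.elim_comp_inl]

theorem eval_TT (t : μ → MvPolynomial α ℂ) (m : α → ℂ) (z : μ → ℂ) :
    eval (Sum.elim m z) (TT t) = (fun j => eval m (t j)) ⬝ᵥ z := by
  simp [TT, map_sum, eval_rename_inl, dotProduct]

theorem X_mem_XB {B : Finset α} {b : α} (hb : b ∈ B) :
    (X (Sum.inl b) : MvPolynomial (α ⊕ μ) ℂ) ∈ XB α μ B :=
  Ideal.subset_span ⟨b, hb, rfl⟩

theorem vanish {r : ℕ} (t : Fin r → μ → MvPolynomial α ℂ) (B : Finset α)
    {f : MvPolynomial (α ⊕ μ) ℂ} (hf : f ∈ JB t B) {m : α → ℂ} {z : μ → ℂ}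
    (hB : ∀ b ∈ B, m b = 0) (ht : ∀ i, eval (Sum.elim m z) (TT (t i)) = 0) :
    eval (Sum.elim m z) f = 0 := by
  have h : JB t B ≤ RingHom.ker (eval (Sum.elim m z)) := by
    refine sup_le ?_ ?_
    · rw [JT, Ideal.span_le]
      rintro _ ⟨i, rfl⟩
      exact ht i
    · rw [XB, Ideal.span_le]
      rintro _ ⟨b, hb, rfl⟩
      change eval _ (X (Sum.inl b)) = 0
      simp [hB b hb]
  exact h hf

/-- substitution of `0` for the variables in `B` -/
noncomputable def sB (B : Finset α) : MvPolynomial (α ⊕ μ) ℂ →ₐ[ℂ] MvPolynomial (α ⊕ μ) ℂ :=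
  aeval (Sum.elim (fun a => if a ∈ B then 0 else X (Sum.inl a)) (fun j => X (Sum.inr j)))

theorem sub_sB_mem (B : Finset α) (f : MvPolynomial (α ⊕ μ) ℂ) : f - sB B f ∈ XB α μ B := by
  have h : (Ideal.Quotient.mkₐ ℂ (XB α μ B)).comp (sB B) = Ideal.Quotient.mkₐ ℂ (XB α μ B) := by
    apply MvPolynomial.algHom_ext
    rintro (a | j)
    · by_cases ha : a ∈ B
      · have h1 : sB B (X (Sum.inl a) : MvPolynomial (α ⊕ μ) ℂ) = 0 := by simp [sB, ha]
        rw [AlgHom.comp_apply, h1, map_zero]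
        symm
        exact Ideal.Quotient.eq_zero_iff_mem.2 (X_mem_XB ha)
      · simp [sB, ha]
    · simp [sB]
  have h2 := congrArg (fun φ => φ f) h
  refine Ideal.Quotient.eq.1 ?_
  exact h2.symm

theorem eval_sB (B : Finset α) (f : MvPolynomial (α ⊕ μ) ℂ) (m : α → ℂ) (z : μ → ℂ) :
    eval (Sum.elim m z) (sB B f) =
      eval (Sum.elim (fun a => if a ∈ B then 0 else m a) z) f := by
  have h : ((aeval (Sum.elim m z) : MvPolynomial (α ⊕ μ) ℂ →ₐ[ℂ] ℂ).comp (sB B)) =
      aeval (Sum.elim (fun a => if a ∈ B then 0 else m a) z) := by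
    apply MvPolynomial.algHom_ext
    rintro (a | j)
    · by_cases ha : a ∈ B <;> simp [sB, ha]
    · simp [sB]
  have h2 := congrArg (fun φ => φ f) h
  simpa [aeval_eq_eval] using h2

theorem mem_XB_of_sB {B : Finset α} {f : MvPolynomial (α ⊕ μ) ℂ} (h : sB B f = 0) :
    f ∈ XB α μ B := by
  have := sub_sB_mem B f
  rwa [h, sub_zero] at this

theorem sB_of_mem {B : Finset α} {f : MvPolynomial (α ⊕ μ) ℂ} (h : f ∈ XB α μ B) :
    sB B f = 0 := by
  have h1 : XB α μ B ≤ RingHom.ker (sB B : MvPolynomial (α ⊕ μ) ℂ →ₐ[ℂ] _).toRingHom := by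
    rw [XB, Ideal.span_le]
    rintro _ ⟨b, hb, rfl⟩
    change sB B (X (Sum.inl b)) = 0
    simp [sB, Finset.mem_coe.1 hb]
  exact h1 h

theorem mem_XB_of_vanish {B : Finset α} {f : MvPolynomial (α ⊕ μ) ℂ}
    (h : ∀ (m : α → ℂ) (z : μ → ℂ), (∀ b ∈ B, m b = 0) → eval (Sum.elim m z) f = 0) :
    f ∈ XB α μ B := by
  apply mem_XB_of_sB
  apply MvPolynomial.funext
  intro x
  have hx : x = Sum.elim (x ∘ Sum.inl) (x ∘ Sum.inr) := (Sum.elim_comp_inl_inr x).symm
  rw [hx, eval_sB, map_zero]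
  apply h
  intro b hb
  simp [hb]

/-- multiplication by `X (inl b)`, `b ∉ B`, is injective modulo `JB t B` -/
def PN {r : ℕ} (t : Fin r → μ → MvPolynomial α ℂ) (B : Finset α) : Prop :=
  ∀ b ∉ B, ∀ f, X (Sum.inl b) * f ∈ JB t B → f ∈ JB t B

/-- Nullstellensatz for `JB t B` -/
def PV {r : ℕ} (t : Fin r → μ → MvPolynomial α ℂ) (B : Finset α) : Prop :=
  ∀ f, (∀ (m : α → ℂ) (z : μ → ℂ), m ≠ 0 → (∀ b ∈ B, m b = 0) →
    (∀ i, eval (Sum.elim m z) (TT (t i)) = 0) → eval (Sum.elim m z) f = 0) → f ∈ JB t B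

theorem JB_zero (t : Fin 0 → μ → MvPolynomial α ℂ) (B : Finset α) : JB t B = XB α μ B := by
  have : JT t = ⊥ := by
    rw [JT, Ideal.span_eq_bot]
    rintro _ ⟨i, rfl⟩
    exact i.elim0
  rw [JB, this, bot_sup_eq]

theorem JT_succ {r : ℕ} (t : Fin (r + 1) → μ → MvPolynomial α ℂ) :
    JT t = JT (fun i : Fin r => t i.castSucc) ⊔ Ideal.span {TT (t (Fin.last r))} := by
  rw [JT, JT, ← Ideal.span_union]
  congr 1
  ext f
  constructor
  · rintro ⟨i, rfl⟩
    induction i using Fin.lastCases with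
    | last => exact Or.inr rfl
    | cast i => exact Or.inl ⟨i, rfl⟩
  · rintro (⟨i, rfl⟩ | hf)
    · exact ⟨i.castSucc, rfl⟩
    · exact ⟨Fin.last r, (Set.mem_singleton_iff.1 hf).symm⟩

theorem JB_succ {r : ℕ} (t : Fin (r + 1) → μ → MvPolynomial α ℂ) (B : Finset α) :
    JB t B = JB (fun i : Fin r => t i.castSucc) B ⊔ Ideal.span {TT (t (Fin.last r))} := by
  rw [JB, JB, JT_succ, sup_assoc, sup_assoc, sup_comm (XB α μ B)]

theorem JB_insert {r : ℕ} (t : Fin r → μ → MvPolynomial α ℂ) (B : Finset α) (b : α) :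
    JB t (insert b B) = JB t B ⊔ Ideal.span {X (Sum.inl b)} := by
  have : XB α μ (insert b B) = XB α μ B ⊔ Ideal.span {X (Sum.inl b)} := by
    rw [XB, XB, ← Ideal.span_union, Finset.coe_insert, Set.image_insert_eq, Set.union_singleton]
  rw [JB, JB, this, sup_assoc]

theorem base (t : Fin 0 → μ → MvPolynomial α ℂ) (B : Finset α)
    (hB : B.card + 1 ≤ Fintype.card α) : PN t B ∧ PV t B := by
  constructor
  · intro b hb f hf
    rw [JB_zero] at hf ⊢
    have h1 := sB_of_mem hf
    rw [map_mul] at h1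
    have h2 : sB B (X (Sum.inl b) : MvPolynomial (α ⊕ μ) ℂ) = X (Sum.inl b) := by simp [sB, hb]
    rw [h2] at h1
    exact mem_XB_of_sB ((mul_eq_zero.1 h1).resolve_left (X_ne_zero _))
  · intro f hf
    rw [JB_zero]
    obtain ⟨b, hb⟩ : ∃ b, b ∉ B := by
      by_contra hcon
      push Not at hcon
      have : B = Finset.univ := Finset.eq_univ_of_forall hcon
      rw [this, Finset.card_univ] at hB
      omega
    have h1 : X (Sum.inl b) * f ∈ XB α μ B := by
      apply mem_XB_of_vanish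
      intro m z hm
      rw [map_mul, eval_X, Sum.elim_inl]
      by_cases h0 : m = 0
      · rw [h0]; simp
      · rw [hf m z h0 hm (fun i => i.elim0), mul_zero]
    have h2 := sB_of_mem h1
    rw [map_mul] at h2
    have h3 : sB B (X (Sum.inl b) : MvPolynomial (α ⊕ μ) ℂ) = X (Sum.inl b) := by simp [sB, hb]
    rw [h3] at h2
    exact mem_XB_of_sB ((mul_eq_zero.1 h2).resolve_left (X_ne_zero _))

/-! ### the Cramer shift -/

section shift

variable {r : ℕ} (t : Fin r → μ → MvPolynomial α ℂ) (l : Fin r → μ → ℂ)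

/-- the matrix of the products `t k · l c` -/
noncomputable def AA : Matrix (Fin r) (Fin r) (MvPolynomial α ℂ) :=
  Matrix.of fun k c => ∑ j, t k j * C (l c j)

/-- its determinant, as a polynomial in all variables -/
noncomputable def DD : MvPolynomial (α ⊕ μ) ℂ := rename Sum.inl (AA t l).det

/-- the shift -/
noncomputable def ww (j : μ) : MvPolynomial (α ⊕ μ) ℂ :=
  ∑ c, C (l c j) * ∑ k, rename Sum.inl ((AA t l).adjugate c k) * TT (t k)

theorem ww_mem (j : μ) : ww t l j ∈ JT t := by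
  refine Ideal.sum_mem _ fun c _ => Ideal.mul_mem_left _ _ (Ideal.sum_mem _ fun k _ =>
    Ideal.mul_mem_left _ _ (Ideal.subset_span ⟨k, rfl⟩))

theorem sum_tw (k : Fin r) :
    ∑ j, rename Sum.inl (t k j) * ww t l j = DD t l * TT (t k) := by
  have h1 : ∀ c, (∑ j, rename Sum.inl (t k j) * C (l c j) : MvPolynomial (α ⊕ μ) ℂ) =
      rename Sum.inl (AA t l k c) := by
    intro c
    simp [AA, map_sum, map_mul]
  have h2 : ∑ j, rename Sum.inl (t k j) * ww t l j =
      ∑ c, rename Sum.inl (AA t l k c) *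
        ∑ k', rename Sum.inl ((AA t l).adjugate c k') * TT (t k') := by
    have h21 : ∀ j, rename Sum.inl (t k j) * ww t l j =
        ∑ c, rename Sum.inl (t k j) * (C (l c j) *
          ∑ k', rename Sum.inl ((AA t l).adjugate c k') * TT (t k')) := by
      intro j
      rw [ww, Finset.mul_sum]
    rw [Finset.sum_congr rfl fun j _ => h21 j, Finset.sum_comm]
    refine Finset.sum_congr rfl fun c _ => ?_
    rw [← h1, Finset.sum_mul]
    refine Finset.sum_congr rfl fun j _ => ?_
    ring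
  have h3 : ∀ k', ∑ c, rename Sum.inl (AA t l k c) * rename Sum.inl ((AA t l).adjugate c k') =
      (rename Sum.inl ((AA t l).det * (1 : Matrix (Fin r) (Fin r) (MvPolynomial α ℂ)) k k') :
        MvPolynomial (α ⊕ μ) ℂ) := by
    intro k'
    have h4 := congrFun (congrFun (Matrix.mul_adjugate (AA t l)) k) k'
    rw [Matrix.mul_apply, Matrix.smul_apply, smul_eq_mul] at h4
    rw [← h4, map_sum]
    exact Finset.sum_congr rfl fun c _ => by rw [map_mul]
  rw [h2]
  simp_rw [Finset.mul_sum]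
  rw [Finset.sum_comm]
  have h5 : ∀ k', ∑ c, rename Sum.inl (AA t l k c) *
      (rename Sum.inl ((AA t l).adjugate c k') * TT (t k')) =
      (rename Sum.inl ((AA t l).det * (1 : Matrix (Fin r) (Fin r) (MvPolynomial α ℂ)) k k') :
        MvPolynomial (α ⊕ μ) ℂ) * TT (t k') := by
    intro k'
    rw [← h3, Finset.sum_mul]
    exact Finset.sum_congr rfl fun c _ => by ring
  simp_rw [h5]
  rw [Finset.sum_eq_single k]
  · rw [Matrix.one_apply_eq, mul_one]; rfl
  · intro k' _ hk
    rw [Matrix.one_apply_ne hk.symm, mul_zero, map_zero, zero_mul]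
  · intro h; exact absurd (Finset.mem_univ k) h

/-- the shifted point -/
noncomputable def sh (m : α → ℂ) (z : μ → ℂ) : μ → ℂ :=
  fun j => z j - eval (Sum.elim m z) (ww t l j) / eval (Sum.elim m z) (DD t l)

theorem TT_sh {m : α → ℂ} {z : μ → ℂ} (hD : eval (Sum.elim m z) (DD t l) ≠ 0) (k : Fin r) :
    eval (Sum.elim m (sh t l m z)) (TT (t k)) = 0 := by
  have h1 := congrArg (eval (Sum.elim m z)) (sum_tw t l k)
  rw [map_sum, map_mul] at h1
  simp only [map_mul, eval_rename_inl] at h1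
  rw [eval_TT] at h1 ⊢
  have h2 : (fun j => eval m (t k j)) ⬝ᵥ sh t l m z =
      (fun j => eval m (t k j)) ⬝ᵥ z -
        (∑ j, eval m (t k j) * eval (Sum.elim m z) (ww t l j)) / eval (Sum.elim m z) (DD t l) := by
    simp only [dotProduct, sh, mul_sub, Finset.sum_sub_distrib, Finset.sum_div]
    congr 1
    exact Finset.sum_congr rfl fun j _ => by ring
  rw [h2, h1, mul_div_cancel_left₀ _ hD, sub_self]

theorem exists_g (f : MvPolynomial (α ⊕ μ) ℂ) : ∃ (M : ℕ) (g : MvPolynomial (α ⊕ μ) ℂ),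
    DD t l ^ M * f - g ∈ JT t ∧ ∀ (m : α → ℂ) (z : μ → ℂ), eval (Sum.elim m z) (DD t l) ≠ 0 →
      eval (Sum.elim m z) g =
        eval (Sum.elim m z) (DD t l) ^ M * eval (Sum.elim m (sh t l m z)) f := by
  induction f using MvPolynomial.induction_on with
  | C c =>
    refine ⟨0, C c, ?_, ?_⟩
    · rw [pow_zero, one_mul, sub_self]; exact zero_mem _
    · intro m z _; simp
  | add p q hp hq =>
    obtain ⟨M₁, g₁, h1, h2⟩ := hp
    obtain ⟨M₂, g₂, h3, h4⟩ := hq
    refine ⟨M₁ + M₂, DD t l ^ M₂ * g₁ + DD t l ^ M₁ * g₂, ?_, ?_⟩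
    · have : DD t l ^ (M₁ + M₂) * (p + q) - (DD t l ^ M₂ * g₁ + DD t l ^ M₁ * g₂) =
          DD t l ^ M₂ * (DD t l ^ M₁ * p - g₁) + DD t l ^ M₁ * (DD t l ^ M₂ * q - g₂) := by ring
      rw [this]
      exact add_mem (Ideal.mul_mem_left _ _ h1) (Ideal.mul_mem_left _ _ h3)
    · intro m z hD
      rw [map_add, map_mul, map_mul, map_pow, map_pow, h2 m z hD, h4 m z hD, map_add]
      ring
  | mul_X p n hp =>
    obtain ⟨M, g, h1, h2⟩ := hp
    rcases n with a | j
    · refine ⟨M, g * X (Sum.inl a), ?_, ?_⟩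
      · have : DD t l ^ M * (p * X (Sum.inl a)) - g * X (Sum.inl a) =
            X (Sum.inl a) * (DD t l ^ M * p - g) := by ring
        rw [this]
        exact Ideal.mul_mem_left _ _ h1
      · intro m z hD
        rw [map_mul, map_mul, h2 m z hD, eval_X, eval_X, Sum.elim_inl, Sum.elim_inl]
        ring
    · refine ⟨M + 1, g * (DD t l * X (Sum.inr j) - ww t l j), ?_, ?_⟩
      · have : DD t l ^ (M + 1) * (p * X (Sum.inr j)) - g * (DD t l * X (Sum.inr j) - ww t l j) =
            DD t l * X (Sum.inr j) * (DD t l ^ M * p - g) + g * ww t l j := by ring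
        rw [this]
        exact add_mem (Ideal.mul_mem_left _ _ h1) (Ideal.mul_mem_left _ _ (ww_mem t l j))
      · intro m z hD
        have h4 : eval (Sum.elim m z) (DD t l) * sh t l m z j =
            eval (Sum.elim m z) (DD t l) * z j - eval (Sum.elim m z) (ww t l j) := by
          rw [sh, mul_sub, mul_div_cancel₀ _ hD]
        rw [map_mul, map_mul, h2 m z hD, map_sub, map_mul, eval_X, eval_X, Sum.elim_inr,
          Sum.elim_inr, ← h4]
        ring

end shift

theorem step {r : ℕ} (t : Fin (r + 1) → μ → MvPolynomial α ℂ)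
    (hli : ∀ m, m ≠ 0 → LinearIndependent ℂ (fun i => fun j => eval m (t i j)))
    (ih : ∀ B : Finset α, B.card + r + 1 ≤ Fintype.card α →
      PN (fun i : Fin r => t i.castSucc) B ∧ PV (fun i : Fin r => t i.castSucc) B)
    (B : Finset α) (hB : B.card + (r + 1) + 1 ≤ Fintype.card α) : PN t B ∧ PV t B := by
  -- (T)
  have hT : ∀ B' : Finset α, B'.card + r + 1 ≤ Fintype.card α → ∀ a,
      a * TT (t (Fin.last r)) ∈ JB (fun i : Fin r => t i.castSucc) B' →
      a ∈ JB (fun i : Fin r => t i.castSucc) B' := by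
    intro B' hB' a ha
    apply (ih B' hB').2
    intro m z hm hmB ht
    obtain ⟨l, hl⟩ := exists_dual _ (hli m hm)
    have hpt : ∀ s : ℂ, Sum.elim m z + s • (Sum.elim 0 (l (Fin.last r)) : α ⊕ μ → ℂ) =
        Sum.elim m (z + s • l (Fin.last r)) := by
      intro s
      funext v
      rcases v with v | v <;> simp
    have h1 : ∀ s : ℂ, (ln (Sum.elim m z) (Sum.elim 0 (l (Fin.last r))) a).eval s *
        (ln (Sum.elim m z) (Sum.elim 0 (l (Fin.last r))) (TT (t (Fin.last r)))).eval s = 0 := by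
      intro s
      rw [eval_ln, eval_ln, ← map_mul, hpt]
      refine vanish _ B' ha hmB fun i => ?_
      rw [eval_TT, dotProduct_add, dotProduct_smul, hl i.castSucc (Fin.last r), if_neg
        (Fin.castSucc_lt_last i).ne, smul_zero, add_zero, ← eval_TT]
      exact ht i
    have h2 : ln (Sum.elim m z) (Sum.elim 0 (l (Fin.last r))) a *
        ln (Sum.elim m z) (Sum.elim 0 (l (Fin.last r))) (TT (t (Fin.last r))) = 0 := by
      apply Polynomial.funext
      intro s
      rw [Polynomial.eval_mul, h1, Polynomial.eval_zero]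
    have h3 : ln (Sum.elim m z) (Sum.elim 0 (l (Fin.last r))) (TT (t (Fin.last r))) ≠ 0 := by
      intro h0
      have h4 : ∀ s : ℂ, eval (Sum.elim m z) (TT (t (Fin.last r))) + s = 0 := by
        intro s
        have h5 := congrArg (Polynomial.eval s) h0
        rw [eval_ln, hpt, eval_TT, dotProduct_add, dotProduct_smul,
          hl (Fin.last r) (Fin.last r), if_pos rfl, ← eval_TT, Polynomial.eval_zero] at h5
        simpa using h5
      have h5 := h4 0
      have h6 := h4 1
      rw [add_zero] at h5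
      rw [h5] at h6
      norm_num at h6
    have h4 := (mul_eq_zero.1 h2).resolve_right h3
    have h5 := eval_ln (Sum.elim m z) (Sum.elim 0 (l (Fin.last r))) a 0
    rw [h4, Polynomial.eval_zero, zero_smul, add_zero] at h5
    exact h5.symm
  -- (N)
  have hN : PN t B := by
    intro b hb f hf
    rw [JB_succ] at hf
    obtain ⟨y, hy, w, hw, hyw⟩ := Submodule.mem_sup.1 hf
    obtain ⟨a, rfl⟩ := Ideal.mem_span_singleton'.1 hw
    have hle : JB (fun i : Fin r => t i.castSucc) B ≤
        JB (fun i : Fin r => t i.castSucc) (insert b B) := by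
      rw [JB_insert]; exact le_sup_left
    have h1 : a * TT (t (Fin.last r)) ∈ JB (fun i : Fin r => t i.castSucc) (insert b B) := by
      have : a * TT (t (Fin.last r)) = X (Sum.inl b) * f - y := by rw [← hyw]; ring
      rw [this]
      refine sub_mem ?_ (hle hy)
      refine Ideal.mul_mem_right _ _ ?_
      exact (le_sup_right : XB α μ (insert b B) ≤ _) (X_mem_XB (Finset.mem_insert_self b B))
    have h2 := hT (insert b B) (by rw [Finset.card_insert_of_notMem hb]; omega) a h1
    rw [JB_insert] at h2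
    obtain ⟨c', hc', w', hw', hcw⟩ := Submodule.mem_sup.1 h2
    obtain ⟨c, rfl⟩ := Ideal.mem_span_singleton'.1 hw'
    have h3 : X (Sum.inl b) * (f - c * TT (t (Fin.last r))) ∈
        JB (fun i : Fin r => t i.castSucc) B := by
      have : X (Sum.inl b) * (f - c * TT (t (Fin.last r))) = y + c' * TT (t (Fin.last r)) := by
        rw [mul_sub, ← hyw, ← hcw]; ring
      rw [this]
      exact add_mem hy (Ideal.mul_mem_right _ _ hc')
    have h4 := (ih B (by omega)).1 b hb _ h3
    rw [JB_succ]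
    have : f = (f - c * TT (t (Fin.last r))) + c * TT (t (Fin.last r)) := by ring
    rw [this]
    exact Submodule.add_mem_sup h4 (Ideal.mul_mem_left _ _ (Ideal.mem_span_singleton_self _))
  refine ⟨hN, ?_⟩
  -- (V)
  intro f hf
  obtain ⟨b, hb⟩ : ∃ b, b ∉ B := by
    by_contra hcon
    push Not at hcon
    have : B = Finset.univ := Finset.eq_univ_of_forall hcon
    rw [this, Finset.card_univ] at hB
    omega
  have hJT : JT t ≤ JB t B := le_sup_left
  have hXB : XB α μ B ≤ JB t B := le_sup_right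
  let U : Ideal (MvPolynomial (α ⊕ μ) ℂ) :=
    { carrier := {u | u * f ∈ JB t B}
      add_mem' := by
        intro x y hx hy
        change (x + y) * f ∈ JB t B
        rw [add_mul]
        exact add_mem hx hy
      zero_mem' := by
        change 0 * f ∈ JB t B
        rw [zero_mul]; exact zero_mem _
      smul_mem' := by
        intro c x hx
        change (c * x) * f ∈ JB t B
        rw [mul_assoc]
        exact Ideal.mul_mem_left _ _ hx }
  have hU : ∀ u, u ∈ U ↔ u * f ∈ JB t B := fun u => Iff.rfl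
  have hDU : ∀ l : Fin (r + 1) → μ → ℂ, ∃ M, DD t l ^ M ∈ U := by
    intro l
    obtain ⟨M, g, h1, h2⟩ := exists_g t l f
    refine ⟨M + 1, ?_⟩
    have h3 : X (Sum.inl b) * (DD t l * g) ∈ JB t B := by
      apply hXB
      apply mem_XB_of_vanish
      intro m z hm
      rw [map_mul, map_mul, eval_X, Sum.elim_inl]
      by_cases h0 : m = 0
      · rw [h0]; simp
      by_cases hD : eval (Sum.elim m z) (DD t l) = 0
      · rw [hD]; ring
      · rw [h2 m z hD, hf m (sh t l m z) h0 hm (TT_sh t l hD)]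
        ring
    have h4 := hN b hb _ h3
    rw [hU]
    have : DD t l ^ (M + 1) * f = DD t l * (DD t l ^ M * f - g) + DD t l * g := by ring
    rw [this]
    exact add_mem (Ideal.mul_mem_left _ _ (hJT h1)) h4
  have hrad : (X (Sum.inl b) : MvPolynomial (α ⊕ μ) ℂ) ∈ U.radical := by
    rw [← vanishingIdeal_zeroLocus_eq_radical (K := ℂ), mem_vanishingIdeal_iff]
    intro x hx
    by_contra hxb
    rw [aeval_X] at hxb
    have hx' : ∀ p ∈ U, eval (Sum.elim (x ∘ Sum.inl) (x ∘ Sum.inr)) p = 0 := by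
      intro p hp
      rw [Sum.elim_comp_inl_inr]
      simpa [aeval_eq_eval] using hx p hp
    have hm : x ∘ Sum.inl ≠ 0 := by
      intro h0
      exact hxb (congrFun h0 b)
    obtain ⟨l, hl⟩ := exists_dual _ (hli _ hm)
    obtain ⟨M, hM⟩ := hDU l
    have h1 := hx' _ hM
    rw [map_pow, DD, eval_rename_inl] at h1
    have h2 : eval (x ∘ Sum.inl) (AA t l).det = 1 := by
      rw [RingHom.map_det]
      have : (eval (x ∘ Sum.inl)).mapMatrix (AA t l) = 1 := by
        ext k c
        rw [RingHom.mapMatrix_apply, Matrix.map_apply, AA, Matrix.of_apply, map_sum]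
        have := hl k c
        rw [dotProduct] at this
        simp only [map_mul, eval_C]
        rw [this, Matrix.one_apply]
      rw [this, Matrix.det_one]
    rw [h2, one_pow] at h1
    exact one_ne_zero h1
  obtain ⟨n, hn⟩ := hrad
  rw [hU] at hn
  induction n with
  | zero => simpa using hn
  | succ n ihn =>
    apply ihn
    apply hN b hb
    have : X (Sum.inl b) * (X (Sum.inl b) ^ n * f) = X (Sum.inl b) ^ (n + 1) * f := by ring
    rw [this]
    exact hn

theorem claim (r : ℕ) (t : Fin r → μ → MvPolynomial α ℂ)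
    (hli : ∀ m, m ≠ 0 → LinearIndependent ℂ (fun i => fun j => eval m (t i j)))
    (B : Finset α) (hB : B.card + r + 1 ≤ Fintype.card α) : PN t B ∧ PV t B := by
  induction r generalizing B with
  | zero => exact base t B (by omega)
  | succ r ih =>
    refine step t hli (fun B' hB' => ih (fun i => t i.castSucc) (fun m hm => ?_) B' hB') B hB
    exact (hli m hm).comp _ (Fin.castSucc_injective r)

theorem JB_empty {r : ℕ} (t : Fin r → μ → MvPolynomial α ℂ) : JB t ∅ = JT t := by
  rw [JB, XB, Finset.coe_empty, Set.image_empty, Ideal.span_empty, sup_bot_eq]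

theorem JB_singleton {r : ℕ} (t : Fin r → μ → MvPolynomial α ℂ) (a : α) :
    JB t {a} = JT t ⊔ Ideal.span {X (Sum.inl a)} := by
  rw [JB, XB, Finset.coe_singleton, Set.image_singleton]

end PT

variable {α μ : Type*} [Fintype α] [DecidableEq α] [Fintype μ] [DecidableEq μ]

theorem T_vanish {r : ℕ} (t : Fin r → μ → MvPolynomial α ℂ)
    (hli : ∀ m, m ≠ 0 → LinearIndependent ℂ (fun i => fun j => eval m (t i j)))
    (hq : r + 1 ≤ Fintype.card α) {f : MvPolynomial (α ⊕ μ) ℂ}
    (hf : ∀ m z, m ≠ 0 → (∀ i, eval (Sum.elim m z) (TT (t i)) = 0) →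
      eval (Sum.elim m z) f = 0) : f ∈ JT t := by
  rw [← PT.JB_empty]
  exact (PT.claim r t hli ∅ (by simpa using hq)).2 f fun m z hm _ ht => hf m z hm ht

theorem T_nzd {r : ℕ} (t : Fin r → μ → MvPolynomial α ℂ)
    (hli : ∀ m, m ≠ 0 → LinearIndependent ℂ (fun i => fun j => eval m (t i j)))
    (hq : r + 1 ≤ Fintype.card α) (a : α) {f : MvPolynomial (α ⊕ μ) ℂ}
    (hf : X (Sum.inl a) * f ∈ JT t) : f ∈ JT t := by
  rw [← PT.JB_empty] at hf ⊢
  exact (PT.claim r t hli ∅ (by simpa using hq)).1 a (by simp) f hf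

theorem T_nzd₂ {r : ℕ} (t : Fin r → μ → MvPolynomial α ℂ)
    (hli : ∀ m, m ≠ 0 → LinearIndependent ℂ (fun i => fun j => eval m (t i j)))
    (hq : r + 2 ≤ Fintype.card α) {a b : α} (hab : a ≠ b) {f : MvPolynomial (α ⊕ μ) ℂ}
    (hf : X (Sum.inl b) * f ∈ JT t ⊔ Ideal.span {X (Sum.inl a)}) :
    f ∈ JT t ⊔ Ideal.span {X (Sum.inl a)} := by
  rw [← PT.JB_singleton] at hf ⊢
  exact (PT.claim r t hli {a} (by rw [Finset.card_singleton]; omega)).1 b
    (by simpa using hab.symm) f hf

end H79.Hart
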