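import Pool.Agent.H79.Hart.Zeros
import Pool.Agent.H79.Hart.ZerosB

/-!
# One reduction step (HBD-5, HBD-6; helper37)
-/

open MvPolynomial

namespace H79.Hart

open H89.Hart

section Ext

/-- HBD-5. Completing an independent family to a basis. -/
theorem exists_extension {V : Type*} [AddCommGroup V] [Module ℂ V] [FiniteDimensional ℂ V]
    {G T : Type*} [Fintype G] [Fintype T] [DecidableEq T] (v : G → V) (w : T → V)
    (hv : LinearIndependent ℂ v) {r : ℕ}
    (hr : Module.finrank ℂ (Submodule.span ℂ (Set.range v ∪ Set.range w)) = r) :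
    ∃ B : Finset T, LinearIndependent ℂ (Sum.elim v (fun b : B => w b)) ∧
      Fintype.card G + B.card = r := by
  classical
  have hs : LinearIndepOn ℂ (Sum.elim v w) (Set.range (Sum.inl : G → G ⊕ T)) := by
    rw [linearIndepOn_range_iff Sum.inl_injective]
    exact hv
  obtain ⟨b, -, hsb, hspan, hli⟩ := exists_linearIndepOn_extension hs (Set.subset_univ _)
  let B : Finset T := Finset.univ.filter fun t => Sum.inr t ∈ b
  have hB : ∀ t, t ∈ B ↔ Sum.inr t ∈ b := fun t => by simp [B]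
  let e : G ⊕ B → b := Sum.elim (fun g => ⟨Sum.inl g, hsb ⟨g, rfl⟩⟩)
    (fun t => ⟨Sum.inr t.1, (hB _).1 t.2⟩)
  have he : Function.Injective e := by
    rintro (g | t) (g' | t') h
    · have h1 : (Sum.inl g : G ⊕ T) = Sum.inl g' := congrArg Subtype.val h
      rw [Sum.inl.inj h1]
    · have h1 : (Sum.inl g : G ⊕ T) = Sum.inr t'.1 := congrArg Subtype.val h
      exact absurd h1 Sum.inl_ne_inr
    · have h1 : (Sum.inr t.1 : G ⊕ T) = Sum.inl g' := congrArg Subtype.val h
      exact absurd h1 Sum.inr_ne_inl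
    · have h1 : (Sum.inr t.1 : G ⊕ T) = Sum.inr t'.1 := congrArg Subtype.val h
      rw [Subtype.ext (Sum.inr.inj h1)]
  have hfun : Sum.elim v (fun b : B => w b) = (fun x : b => Sum.elim v w x.1) ∘ e := by
    funext x
    rcases x with g | t <;> rfl
  have hli' : LinearIndependent ℂ (Sum.elim v (fun b : B => w b)) := by
    rw [hfun]
    exact LinearIndependent.comp hli e he
  refine ⟨B, hli', ?_⟩
  have hrange : Set.range (Sum.elim v (fun b : B => w b)) = Sum.elim v w '' b := by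
    ext x
    constructor
    · rintro ⟨y, rfl⟩
      rcases y with g | t
      · exact ⟨Sum.inl g, hsb ⟨g, rfl⟩, rfl⟩
      · exact ⟨Sum.inr t.1, (hB _).1 t.2, rfl⟩
    · rintro ⟨y, hy, rfl⟩
      rcases y with g | t
      · exact ⟨Sum.inl g, rfl⟩
      · exact ⟨Sum.inr ⟨t, (hB _).2 hy⟩, rfl⟩
  have hsp : Submodule.span ℂ (Set.range (Sum.elim v (fun b : B => w b))) =
      Submodule.span ℂ (Set.range v ∪ Set.range w) := by
    rw [hrange]
    apply le_antisymm
    · refine Submodule.span_mono ?_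
      rintro _ ⟨y, -, rfl⟩
      rcases y with g | t
      · exact Or.inl ⟨g, rfl⟩
      · exact Or.inr ⟨t, rfl⟩
    · rw [Submodule.span_le]
      rintro x (⟨g, rfl⟩ | ⟨t, rfl⟩)
      · exact hspan ⟨Sum.inl g, trivial, rfl⟩
      · exact hspan ⟨Sum.inr t, trivial, rfl⟩
  rw [← hsp, finrank_span_eq_card hli'] at hr
  simpa using hr

end Ext

section Div

variable {κ : Type*} [Fintype κ] [DecidableEq κ]

/-- A polynomial which vanishes on the hyperplane `x j = 0` is divisible by `X j`. -/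
theorem X_dvd_of_vanish (j : κ) (f : MvPolynomial κ ℂ)
    (hf : ∀ y : κ → ℂ, y j = 0 → eval y f = 0) : X j ∣ f := by
  rw [← Ideal.mem_span_singleton]
  let s : MvPolynomial κ ℂ →ₐ[ℂ] MvPolynomial κ ℂ := aeval (fun i => if i = j then 0 else X i)
  have hs : s f = 0 := by
    refine MvPolynomial.funext fun y => ?_
    rw [map_zero, ← hf (fun i => if i = j then 0 else y i) (by simp)]
    have : ((aeval y : MvPolynomial κ ℂ →ₐ[ℂ] ℂ).comp s) =
        (aeval (fun i => if i = j then 0 else y i) : MvPolynomial κ ℂ →ₐ[ℂ] ℂ) := by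
      apply MvPolynomial.algHom_ext
      intro i
      simp only [s, AlgHom.comp_apply, aeval_X]
      split_ifs <;> simp
    have h2 := congrArg (fun φ => φ f) this
    simpa [aeval_eq_eval] using h2
  have hq : ((Ideal.Quotient.mkₐ ℂ (Ideal.span {(X j : MvPolynomial κ ℂ)})).comp s) =
      Ideal.Quotient.mkₐ ℂ (Ideal.span {(X j : MvPolynomial κ ℂ)}) := by
    apply MvPolynomial.algHom_ext
    intro i
    simp only [s, AlgHom.comp_apply, aeval_X]
    split_ifs with h
    · subst h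
      rw [map_zero]
      symm
      exact Ideal.Quotient.eq_zero_iff_mem.2 (Ideal.subset_span rfl)
    · rfl
  have h3 := congrArg (fun φ => φ f) hq
  simp only [AlgHom.comp_apply, hs, map_zero] at h3
  exact Ideal.Quotient.eq_zero_iff_mem.1 h3.symm

/-- The quotient is a form. -/
theorem exists_quot_homog (j : κ) (f : MvPolynomial κ ℂ) (δ : ℕ) (hh : f.IsHomogeneous (δ + 1))
    (hf : ∀ y : κ → ℂ, y j = 0 → eval y f = 0) :
    ∃ q : MvPolynomial κ ℂ, q.IsHomogeneous δ ∧ f = X j * q := by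
  refine ⟨f.divMonomial (Finsupp.single j 1), ?_, ?_⟩
  · intro m hm
    rw [coeff_divMonomial] at hm
    have := hh hm
    rw [map_add] at this
    have h1 : Finsupp.weight (1 : κ → ℕ) (Finsupp.single j 1) = 1 := by
      simp [Finsupp.weight_single]
    omega
  · have h0 := X_dvd_iff_modMonomial_eq_zero.1 (X_dvd_of_vanish j f hf)
    have h1 := divMonomial_add_modMonomial_single f j
    rw [h0, add_zero] at h1
    exact h1.symm

end Div

section A

variable {ι κ : Type*} [Fintype ι] [DecidableEq ι] [Fintype κ] [DecidableEq κ]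

theorem ev_sub (Ψ : (κ → ℂ) →ₗ[ℂ] (ι → ℂ)) {μ : Type*} (s : μ → MvPolynomial ι ℂ)
    (y : κ → ℂ) : (fun i => eval y (H15.Hart.sub Ψ (s i))) = fun i => eval (Ψ y) (s i) := by
  funext i
  rw [H15.Hart.eval_sub]

/-- The map `x ↦ ψ (x ∘ castSucc) + x (last) • p`. -/
noncomputable def addVec {k : ℕ} (ψ : (Fin (k + 1) → ℂ) →ₗ[ℂ] (κ → ℂ)) (p : κ → ℂ) :
    (Fin (k + 2) → ℂ) →ₗ[ℂ] (κ → ℂ) where
  toFun x := ψ (x ∘ Fin.castSucc) + x (Fin.last _) • p
  map_add' x y := by
    have : (x + y) ∘ Fin.castSucc = x ∘ Fin.castSucc + y ∘ Fin.castSucc := rfl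
    rw [this, map_add, Pi.add_apply, add_smul]
    abel
  map_smul' c x := by
    have : (c • x) ∘ Fin.castSucc = c • (x ∘ (Fin.castSucc : Fin (k + 1) → Fin (k + 2))) := rfl
    rw [this, map_smul, Pi.smul_apply, smul_eq_mul, RingHom.id_apply, smul_add, smul_smul]

theorem addVec_apply {k : ℕ} (ψ : (Fin (k + 1) → ℂ) →ₗ[ℂ] (κ → ℂ)) (p : κ → ℂ)
    (x : Fin (k + 2) → ℂ) : addVec ψ p x = ψ (x ∘ Fin.castSucc) + x (Fin.last _) • p := rfl

theorem addVec_injective {k : ℕ} {ψ : (Fin (k + 1) → ℂ) →ₗ[ℂ] (κ → ℂ)}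
    (hψ : Function.Injective ψ) {p : κ → ℂ} (hp : ∀ x, ψ x ≠ p) :
    Function.Injective (addVec ψ p) := by
  rw [injective_iff_map_eq_zero]
  intro x hx
  rw [addVec_apply] at hx
  by_cases h : x (Fin.last _) = 0
  · rw [h, zero_smul, add_zero] at hx
    have h1 : x ∘ Fin.castSucc = 0 := (injective_iff_map_eq_zero ψ).1 hψ _ hx
    funext i
    refine Fin.lastCases h (fun i => ?_) i
    exact congrFun h1 i
  · exfalso
    refine hp (-((x (Fin.last _))⁻¹ • (x ∘ Fin.castSucc))) ?_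
    have h2 : ψ (x ∘ Fin.castSucc) = -(x (Fin.last _) • p) := eq_neg_of_add_eq_zero_left hx
    rw [map_neg, map_smul, h2, smul_neg, neg_neg, smul_smul, inv_mul_cancel₀ h, one_smul]

theorem addVec_single {k : ℕ} (ψ : (Fin (k + 1) → ℂ) →ₗ[ℂ] (κ → ℂ)) (p : κ → ℂ) :
    addVec ψ p (Pi.single (Fin.last _) 1) = p := by
  rw [addVec_apply]
  have : (Pi.single (Fin.last (k + 1)) (1 : ℂ) : Fin (k + 2) → ℂ) ∘ Fin.castSucc = 0 := by
    funext i
    simp [Fin.castSucc_ne_last]
  rw [this, map_zero]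
  simp

/-- HBD-6. One reduction step. -/
theorem reduce {I : Ideal (MvPolynomial ι ℂ)} {r : ℕ} (hI : Smooth I r)
    {φ : (κ → ℂ) →ₗ[ℂ] (ι → ℂ)} (hφ : Function.Injective φ) (hφI : ∀ y, φ y ∈ cone I)
    {p : κ → ℂ} {G B : Type*} [Fintype G] [Fintype B] [DecidableEq B] [Nonempty B]
    (g : G → ι → MvPolynomial κ ℂ) (a : G → ℕ) (hg : ∀ b, Sec I φ (a b) (g b))
    (hgli : ∀ y, y ≠ 0 → LinearIndependent ℂ (fun b => ev (g b) y)) (δ : ℕ)
    (τ : B → ι → MvPolynomial κ ℂ) (hτ : ∀ b, Sec I φ (δ + 1) (τ b))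
    (hz : ∀ b, ∃ y, y ≠ 0 ∧ ev (τ b) y = 0)
    (hli : LinearIndependent ℂ (Sum.elim (fun b => ev (g b) p) (fun b => ev (τ b) p)))
    (k : ℕ) (hk1 : Fintype.card B * r < Fintype.card κ)
    (hk2 : k + Fintype.card B * r * Nat.multichoose (k + 1) δ < Fintype.card κ) :
    ∃ (φ' : (Fin (k + 2) → ℂ) →ₗ[ℂ] (ι → ℂ)) (g' : G → ι → MvPolynomial (Fin (k + 2)) ℂ)
      (τ' : B → ι → MvPolynomial (Fin (k + 2)) ℂ) (p' : Fin (k + 2) → ℂ),
      Function.Injective φ' ∧ (∀ y, φ' y ∈ cone I) ∧ p' ≠ 0 ∧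
      (∀ b, Sec I φ' (a b) (g' b)) ∧
      (∀ y, y ≠ 0 → LinearIndependent ℂ (fun b => ev (g' b) y)) ∧
      (∀ b, Sec I φ' δ (τ' b)) ∧
      LinearIndependent ℂ (Sum.elim (fun b => ev (g' b) p') (fun b => ev (τ' b) p')) := by
  obtain ⟨z, hz0, hzτ⟩ := common_zero hI hφ hφI δ τ hτ hz hk1
  obtain ⟨ψ, hψ, -, hψτ⟩ := exists_sec_space hI hφ hφI δ τ hτ hz0 hzτ k hk2
  have hτp : ∀ b, ev (τ b) p ≠ 0 := fun b => by
    have := hli.ne_zero (Sum.inr b)
    simpa using this
  have hp : ∀ x, ψ x ≠ p := fun x h => by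
    obtain ⟨b⟩ := (inferInstance : Nonempty B)
    exact hτp b (h ▸ hψτ x b)
  have hΨ : Function.Injective (addVec ψ p) := addVec_injective hψ hp
  set Ψ := addVec ψ p with hΨdef
  have hΨ0 : ∀ y, y ≠ 0 → Ψ y ≠ 0 := fun y hy h => hy ((injective_iff_map_eq_zero Ψ).1 hΨ y h)
  -- the divided sections
  have hquot : ∀ b i, ∃ q : MvPolynomial (Fin (k + 2)) ℂ, q.IsHomogeneous δ ∧
      H15.Hart.sub Ψ (τ b i) = X (Fin.last _) * q := fun b i => by
    refine exists_quot_homog _ _ δ (H15.Hart.sub_homog Ψ ((hτ b).homog i)) fun y hy => ?_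
    rw [H15.Hart.eval_sub, hΨdef, addVec_apply, hy, zero_smul, add_zero]
    exact congrFun (hψτ _ b) i
  choose τ' hτ'h hτ' using hquot
  have hev : ∀ b y, y (Fin.last _) • ev (τ' b) y = ev (τ b) (Ψ y) := fun b y => by
    funext i
    have h := congrArg (eval y) (hτ' b i)
    rw [H15.Hart.eval_sub, map_mul, eval_X] at h
    exact h.symm
  have hevg : ∀ b y, ev (fun i => H15.Hart.sub Ψ (g b i)) y = ev (g b) (Ψ y) := fun b y => by
    funext i
    exact H15.Hart.eval_sub _ _ _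
  have hφΨ : Function.Injective (φ ∘ₗ Ψ) := by
    rw [LinearMap.coe_comp]
    exact hφ.comp hΨ
  refine ⟨φ ∘ₗ Ψ, fun b i => H15.Hart.sub Ψ (g b i), τ', Pi.single (Fin.last _) 1,
    hφΨ, fun y => hφI _, ?_, fun b => ⟨fun i => ?_, fun y hy => ?_⟩, fun y hy => ?_,
    fun b => ⟨fun i => hτ'h b i, fun y hy => ?_⟩, ?_⟩
  · intro h
    have := congrFun h (Fin.last _)
    simp at this
  · exact H15.Hart.sub_homog Ψ ((hg b).homog i)
  · rw [hevg]
    exact (hg b).mem _ (hΨ0 y hy)
  · simp only [hevg]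
    exact hgli _ (hΨ0 y hy)
  · -- values of the divided sections
    have key : ∀ y : Fin (k + 2) → ℂ, y ≠ 0 → y (Fin.last _) ≠ 0 →
        ev (τ' b) y ∈ N I ((φ ∘ₗ Ψ) y) := by
      intro y hy hyl
      have h1 : ev (τ b) (Ψ y) ∈ N I (φ (Ψ y)) := (hτ b).mem _ (hΨ0 y hy)
      rw [← hev b y] at h1
      have h2 := Submodule.smul_mem _ (y (Fin.last _))⁻¹ h1
      rwa [smul_smul, inv_mul_cancel₀ hyl, one_smul] at h2
    by_cases hyl : y (Fin.last _) = 0
    · -- limit
      let e : Fin (k + 2) → ℂ := Pi.single (Fin.last _) 1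
      have hcont : Continuous fun t : ℂ => y + t • e := by fun_prop
      have hx : Filter.Tendsto (fun t : ℂ => (φ ∘ₗ Ψ) (y + t • e)) (nhdsWithin 0 {0}ᶜ)
          (nhds ((φ ∘ₗ Ψ) y)) := by
        have hc : Continuous fun t : ℂ => (φ ∘ₗ Ψ) (y + t • e) :=
          (LinearMap.continuous_of_finiteDimensional (φ ∘ₗ Ψ)).comp hcont
        have := hc.tendsto 0
        simp only [zero_smul, add_zero] at this
        exact this.mono_left nhdsWithin_le_nhds
      have hφt : Filter.Tendsto (fun t : ℂ => ev (τ' b) (y + t • e)) (nhdsWithin 0 {0}ᶜ)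
          (nhds (ev (τ' b) y)) := by
        have hc : Continuous fun t : ℂ => ev (τ' b) (y + t • e) :=
          continuous_pi fun i => (MvPolynomial.continuous_eval (τ' b i)).comp hcont
        have := hc.tendsto 0
        simp only [zero_smul, add_zero] at this
        exact this.mono_left nhdsWithin_le_nhds
      have hne : (φ ∘ₗ Ψ) y ≠ 0 := fun h => hy ((injective_iff_map_eq_zero _).1 hφΨ y h)
      refine (mem_N_of_tendsto hI hne hx hφt ?_).2
      filter_upwards [self_mem_nhdsWithin] with t ht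
      have ht0 : t ≠ 0 := ht
      have hlast : (y + t • e) (Fin.last _) = t := by
        simp [e, hyl]
      refine ⟨hφI _, key _ (fun h => ht0 ?_) (by rw [hlast]; exact ht0)⟩
      rw [← hlast, h]
      rfl
    · exact key y hy hyl
  · have h1 : ∀ b, ev (τ' b) (Pi.single (Fin.last _) 1) = ev (τ b) p := fun b => by
      have := hev b (Pi.single (Fin.last _) 1)
      rw [Pi.single_eq_same, one_smul, hΨdef, addVec_single] at this
      exact this
    have h2 : ∀ b, ev (fun i => H15.Hart.sub Ψ (g b i)) (Pi.single (Fin.last _) 1) =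
        ev (g b) p := fun b => by
      rw [hevg, hΨdef, addVec_single]
    have h3 : (Sum.elim (fun b => ev (fun i => H15.Hart.sub Ψ (g b i)) (Pi.single (Fin.last _) 1))
        (fun b => ev (τ' b) (Pi.single (Fin.last _) 1))) =
        Sum.elim (fun b => ev (g b) p) (fun b => ev (τ b) p) := by
      funext x
      rcases x with x | x
      · exact h2 x
      · exact h1 x
    rw [h3]
    exact hli

end A

end H79.Hart
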