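import Pool.Agent.H79.Hart.Defs
import Pool.Agent.H34.Uni.Arc

/-!
# Initial forms along a linear subspace vanish on the tangent spaces
-/

open MvPolynomial Filter Topology

namespace H79.Hart

open H89.Hart

variable {α μ : Type*} [Fintype α] [DecidableEq α] [Fintype μ] [DecidableEq μ]

/-- Evaluation of `Xi`. -/
theorem eval_Xi (m : α → ℂ) (z : μ → ℂ) (s : ℂ) (f : MvPolynomial (α ⊕ μ) ℂ) :
    ((Xi f).map (eval (Sum.elim m z))).eval s = eval (Sum.elim m (s • z)) f := by
  have h : ((Polynomial.evalRingHom s).comp (Polynomial.mapRingHom (eval (Sum.elim m z)))).comp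
      (Xi : MvPolynomial (α ⊕ μ) ℂ →ₐ[ℂ] _).toRingHom = eval (Sum.elim m (s • z)) := by
    apply MvPolynomial.ringHom_ext
    · intro c
      have h1 : (Xi (C c : MvPolynomial (α ⊕ μ) ℂ)) = Polynomial.C (C c) := by
        have := (Xi : MvPolynomial (α ⊕ μ) ℂ →ₐ[ℂ] _).commutes c
        rw [MvPolynomial.algebraMap_eq] at this
        rw [this]
        rfl
      simp [h1]
    · rintro (a | j)
      · simp [Xi]
      · have h2 : Xi (X (Sum.inr j) : MvPolynomial (α ⊕ μ) ℂ) =
            Polynomial.C (X (Sum.inr j)) * Polynomial.X := by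
          unfold Xi
          rw [aeval_X]
          rfl
        change ((Xi (X (Sum.inr j))).map (eval (Sum.elim m z))).eval s = _
        rw [h2, Polynomial.map_mul, Polynomial.map_C, Polynomial.map_X, Polynomial.eval_mul,
          Polynomial.eval_C, Polynomial.eval_X, eval_X, eval_X]
        exact mul_comm _ _
  exact congrArg (fun φ => φ f) h

/-- the value of a polynomial with polynomial coefficients is continuous. -/
theorem continuous_val {ι : Type*} [Fintype ι] (W : Polynomial (MvPolynomial ι ℂ)) :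
    Continuous fun y : (ι → ℂ) × ℂ => (W.map (eval y.1)).eval y.2 := by
  have : (fun y : (ι → ℂ) × ℂ => (W.map (eval y.1)).eval y.2) =
      fun y => ∑ k ∈ Finset.range (W.natDegree + 1), eval y.1 (W.coeff k) * y.2 ^ k := by
    funext y
    rw [Polynomial.eval_eq_sum_range' (n := W.natDegree + 1)
      (Nat.lt_succ_of_le Polynomial.natDegree_map_le)]
    simp only [Polynomial.coeff_map]
  rw [this]
  refine continuous_finsetSum _ fun k _ => ?_
  exact ((MvPolynomial.continuous_eval _).comp continuous_fst).mul (continuous_snd.pow k)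

/-- HBD-9. Initial forms along a linear subspace vanish on the tangent spaces. -/
theorem tangent_cone {I : Ideal (MvPolynomial (α ⊕ μ) ℂ)} {r : ℕ} (hI : Smooth I r) {a : ℕ}
    {w : MvPolynomial (α ⊕ μ) ℂ} (hw : w ∈ I) (hwa : w ∈ Fil α μ a) {m : α → ℂ} {z : μ → ℂ}
    (hm : (Sum.elim m 0 : α ⊕ μ → ℂ) ∈ cone I) (hm0 : m ≠ 0)
    (hz : ∀ s ∈ N I (Sum.elim m 0), s ⬝ᵥ (Sum.elim 0 z : α ⊕ μ → ℂ) = 0) :
    eval (Sum.elim m z) (zc a w) = 0 := by
  obtain ⟨W, hW⟩ : ∃ W, Xi w = Polynomial.X ^ a * W := by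
    have h := Ideal.mem_comap.1 hwa
    exact Ideal.mem_span_singleton'.1 h |>.imp fun W hW => by rw [← hW, mul_comm]
  have hp0 : (Sum.elim m 0 : α ⊕ μ → ℂ) ≠ 0 := by
    intro h
    apply hm0
    funext i
    exact congrFun h (Sum.inl i)
  obtain ⟨c, hc0, hcd, hcI⟩ := H12.Uni.arc hI hm hp0
  set v : α ⊕ μ → ℂ := Sum.elim 0 z with hv
  have hvT : ∀ t : ℂ, t • v ∈ H12.Uni.T I (Sum.elim m 0) := by
    intro t s hs
    rw [dotProduct_smul, hz s hs, smul_zero]
  have h0 : Tendsto (fun t : ℂ => t • v) (𝓝 0) (𝓝 0) := by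
    have : Tendsto (fun t : ℂ => t • v) (𝓝 0) (𝓝 ((0 : ℂ) • v)) :=
      (continuous_id.smul continuous_const).tendsto 0
    rwa [zero_smul] at this
  have hcone : ∀ᶠ t : ℂ in 𝓝[≠] 0, c (t • v) ∈ cone I := by
    have := (h0.mono_left nhdsWithin_le_nhds : Tendsto (fun t : ℂ => t • v) (𝓝[≠] 0) (𝓝 0)).eventually hcI
    exact this.mono fun t ht => ht (hvT t)
  have hder : HasDerivAt (fun t : ℂ => c (t • v)) v 0 := by
    have h1 : HasDerivAt (fun t : ℂ => t • v) v 0 := by
      simpa using (hasDerivAt_id (0 : ℂ)).smul_const v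
    have h2 : HasFDerivAt c (ContinuousLinearMap.id ℂ (α ⊕ μ → ℂ)) ((0 : ℂ) • v) := by
      rw [zero_smul]
      exact hcd.hasFDerivAt
    exact h2.comp_hasDerivAt (0 : ℂ) h1
  have hslope : Tendsto (fun t : ℂ => t⁻¹ • (c (t • v) - Sum.elim m 0)) (𝓝[≠] 0) (𝓝 v) := by
    have h1 := hasDerivAt_iff_tendsto_slope.1 hder
    refine h1.congr fun t => ?_
    rw [slope_def_module, zero_smul, hc0, sub_zero]
  -- the two components
  set mt : ℂ → α → ℂ := fun t i => c (t • v) (Sum.inl i) with hmt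
  set zt : ℂ → μ → ℂ := fun t j => t⁻¹ * c (t • v) (Sum.inr j) with hzt
  have hct : Tendsto (fun t : ℂ => c (t • v)) (𝓝[≠] 0) (𝓝 (Sum.elim m 0)) := by
    have h1 : Tendsto (fun t : ℂ => c (t • v)) (𝓝 0) (𝓝 (c ((0 : ℂ) • v))) :=
      hder.continuousAt
    rw [zero_smul, hc0] at h1
    exact h1.mono_left nhdsWithin_le_nhds
  have hy : Tendsto (fun t : ℂ => (Sum.elim (mt t) (zt t) : α ⊕ μ → ℂ)) (𝓝[≠] 0)
      (𝓝 (Sum.elim m z)) := by
    rw [tendsto_pi_nhds] at hct hslope ⊢
    rintro (i | j)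
    · simpa [hmt] using hct (Sum.inl i)
    · simpa [hzt, hv] using hslope (Sum.inr j)
  have hlim : Tendsto (fun t : ℂ => (W.map (eval (Sum.elim (mt t) (zt t)))).eval t) (𝓝[≠] 0)
      (𝓝 ((W.map (eval (Sum.elim m z))).eval 0)) := by
    have h1 := (continuous_val W).tendsto ((Sum.elim m z : α ⊕ μ → ℂ), (0 : ℂ))
    have h2 : Tendsto (fun t : ℂ => ((Sum.elim (mt t) (zt t) : α ⊕ μ → ℂ), t)) (𝓝[≠] 0)
        (𝓝 ((Sum.elim m z : α ⊕ μ → ℂ), (0 : ℂ))) :=
      hy.prodMk_nhds (tendsto_id.mono_left nhdsWithin_le_nhds)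
    exact h1.comp h2
  have hzero : ∀ᶠ t : ℂ in 𝓝[≠] 0, (W.map (eval (Sum.elim (mt t) (zt t)))).eval t = 0 := by
    filter_upwards [hcone, self_mem_nhdsWithin] with t ht ht0
    have ht0' : t ≠ 0 := ht0
    have h1 : (Sum.elim (mt t) (t • zt t) : α ⊕ μ → ℂ) = c (t • v) := by
      funext k
      rcases k with i | j
      · rfl
      · simp only [Sum.elim_inr, Pi.smul_apply, hzt, smul_eq_mul]
        rw [← mul_assoc, mul_inv_cancel₀ ht0', one_mul]
    have h2 := ht w hw
    rw [← h1, ← eval_Xi, hW, Polynomial.map_mul, Polynomial.map_pow, Polynomial.map_X,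
      Polynomial.eval_mul, Polynomial.eval_pow, Polynomial.eval_X] at h2
    exact (mul_eq_zero.1 h2).resolve_left (pow_ne_zero _ ht0')
  have hfin : (W.map (eval (Sum.elim m z))).eval 0 = 0 :=
    tendsto_nhds_unique hlim ((tendsto_congr' hzero).2 tendsto_const_nhds)
  rw [← Polynomial.coeff_zero_eq_eval_zero, Polynomial.coeff_map] at hfin
  have hco : zc a w = W.coeff 0 := by
    unfold zc
    rw [hW, Polynomial.coeff_X_pow_mul']
    simp
  rw [hco]
  exact hfin

end H79.Hart
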